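import Pool.Agent.Lib.MP_3b2b47_co.Reduce

set_option autoImplicit false

open MeasureTheory Set Filter Topology Pointwise

namespace Pool.Agent.Lib.MP_3b2b47_co

/-- conclusion of the reduction, for dimension d and n translates -/
def Beats (d n : ℕ) : Prop :=
  ∃ (C : Set (EuclideanSpace ℝ (Fin d))) (x : Fin n → EuclideanSpace ℝ (Fin d)),
    Convex ℝ C ∧ IsCompact C ∧ (interior C).Nonempty ∧ C = -C ∧
    (∀ i j, i ≠ j → Disjoint (interior (x i +ᵥ C)) (interior (x j +ᵥ C))) ∧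
    (∀ i j, i ≠ j → ∃ (g : EuclideanSpace ℝ (Fin d) →L[ℝ] ℝ) (c : ℝ), g ≠ 0 ∧
      (∀ p ∈ x i +ᵥ C, g p ≤ c) ∧ (∀ p ∈ x j +ᵥ C, c ≤ g p) ∧
      ∀ k, ∀ p ∈ interior (x k +ᵥ C), g p ≠ c) ∧
    ∀ y : Fin n → EuclideanSpace ℝ (Fin d), Collinear ℝ (Set.range y) →
      (∀ i j, i ≠ j → Disjoint (interior (y i +ᵥ C)) (interior (y j +ᵥ C))) →
      volume (convexHull ℝ (⋃ i, x i +ᵥ C)) < volume (convexHull ℝ (⋃ i, y i +ᵥ C))

theorem signs {d n : ℕ} (z : Fin n → Fin d → ℤ) (h1 : ∀ i j, i ≠ j → ∃ m, z i m ≠ z j m)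
    (h2 : ∀ k m, z k m = 1 ∨ z k m = -1) (i j : Fin n) (hij : i ≠ j) :
    ∃ m, (z i m : ℝ) ≠ z j m ∧ ∀ k, (z k m : ℝ) = 1 ∨ (z k m : ℝ) = -1 := by
  obtain ⟨m, hm⟩ := h1 i j hij
  exact ⟨m, by exact_mod_cast hm, fun k => by exact_mod_cast h2 k m⟩

theorem add_coord {d : ℕ} (z : Fin d → ℤ) (h2 : ∀ m, z m = 1 ∨ z m = -1) (p : Fin d → ℝ)
    (hp : ∀ i, |p i| ≤ 1) (i : Fin d) : |((fun m => (z m : ℝ)) + p) i| ≤ 2 := by
  have := abs_le.1 (hp i)
  rw [Pi.add_apply, abs_le]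
  rcases h2 i with h | h <;> rw [h] <;> push_cast <;> constructor <;> linarith [this.1, this.2]

theorem add_K {d : ℕ} (z : Fin d → ℤ) (h2 : ∀ m, z m = 1 ∨ z m = -1)
    (h3 : ∑ m, z m = 1 ∨ ∑ m, z m = -1) (p : Fin d → ℝ) (hp : p ∈ body (fn (Fin d)) 1) :
    (fun m => (z m : ℝ)) + p ∈ body (fn (Fin d)) 2 := by
  rw [mem_K] at hp ⊢
  refine ⟨add_coord z h2 p hp.1, ?_⟩
  have := abs_le.1 hp.2
  simp only [Pi.add_apply, Finset.sum_add_distrib, ← Int.cast_sum, abs_le]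
  rcases h3 with h | h <;> rw [h] <;> push_cast <;> constructor <;> linarith [this.1, this.2]

theorem odd_case (d n : ℕ) (hd : 2 ≤ d) (z : Fin (n + 1) → Fin d → ℤ)
    (h1 : ∀ i j, i ≠ j → ∃ m, z i m ≠ z j m) (h2 : ∀ k m, z k m = 1 ∨ z k m = -1)
    (h3 : ∀ k, ∑ m, z k m = 1 ∨ ∑ m, z k m = -1)
    (h4 : (2 : ℝ) ^ d < 1 + d / (d + 1) * (2 * n)) : Beats d (n + 1) := by
  have : Nontrivial (Fin d) := Fin.nontrivial_iff_two_le.2 hd
  have hp := K_pos (ι := Fin d)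
  refine reduce (fn (Fin d)) (fun i => ⟨some i, fn_some i⟩) (fun k m => (z k m : ℝ))
    (signs z h1 h2) _ (d / (d + 1)) hp.le (by positivity)
    (fun v a D hD => by simpa using sweepK v a D hD) _ (convex_body _ 2)
    (fun k => add_K (z k) (h2 k) (h3 k)) ?_
  rw [K_two, ENNReal.ofReal_lt_ofReal_iff (by positivity), Fintype.card_fin, mul_comm]
  exact mul_lt_mul_of_pos_left h4 hp

/-- centres in dimension three -/
def z3 : Fin 6 → Fin 3 → ℤ :=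
  ![![1, 1, -1],
    ![1, -1, 1],
    ![1, -1, -1],
    ![-1, 1, 1],
    ![-1, 1, -1],
    ![-1, -1, 1]]

/-- centres in dimension four -/
def z4 : Fin 10 → Fin 4 → ℤ :=
  ![![1, 1, 1, -1],
    ![1, 1, -1, 1],
    ![1, 1, -1, -1],
    ![1, -1, 1, 1],
    ![1, -1, 1, -1],
    ![1, -1, -1, 1],
    ![-1, 1, 1, 1],
    ![-1, 1, 1, -1],
    ![-1, 1, -1, 1],
    ![-1, -1, 1, 1]]

/-- centres in dimension five -/
def z5 : Fin 20 → Fin 5 → ℤ :=
  ![![1, 1, 1, -1, -1],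
    ![1, 1, -1, 1, -1],
    ![1, 1, -1, -1, 1],
    ![1, 1, -1, -1, -1],
    ![1, -1, 1, 1, -1],
    ![1, -1, 1, -1, 1],
    ![1, -1, 1, -1, -1],
    ![1, -1, -1, 1, 1],
    ![1, -1, -1, 1, -1],
    ![1, -1, -1, -1, 1],
    ![-1, 1, 1, 1, -1],
    ![-1, 1, 1, -1, 1],
    ![-1, 1, 1, -1, -1],
    ![-1, 1, -1, 1, 1],
    ![-1, 1, -1, 1, -1],
    ![-1, 1, -1, -1, 1],
    ![-1, -1, 1, 1, 1],
    ![-1, -1, 1, 1, -1],
    ![-1, -1, 1, -1, 1],
    ![-1, -1, -1, 1, 1]]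

theorem z3_1 : ∀ i j, i ≠ j → ∃ m, z3 i m ≠ z3 j m := by decide +kernel
theorem z3_2 : ∀ k m, z3 k m = 1 ∨ z3 k m = -1 := by decide +kernel
theorem z3_3 : ∀ k, ∑ m, z3 k m = 1 ∨ ∑ m, z3 k m = -1 := by decide +kernel
theorem z4_1 : ∀ i j, i ≠ j → ∃ m, z4 i m ≠ z4 j m := by decide +kernel
theorem z4_2 : ∀ k m, z4 k m = 1 ∨ z4 k m = -1 := by decide +kernel
theorem z4_3 : ∀ k, ∑ m, z4 k m = 0 ∨ ∑ m, z4 k m = 2 := by decide +kernel
theorem z5_1 : ∀ i j, i ≠ j → ∃ m, z5 i m ≠ z5 j m := by decide +kernel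
theorem z5_2 : ∀ k m, z5 k m = 1 ∨ z5 k m = -1 := by decide +kernel
theorem z5_3 : ∀ k, ∑ m, z5 k m = 1 ∨ ∑ m, z5 k m = -1 := by decide +kernel

theorem beats3 : Beats 3 6 := odd_case 3 5 (by norm_num) z3 z3_1 z3_2 z3_3 (by norm_num)

theorem beats5 : Beats 5 20 := odd_case 5 19 (by norm_num) z5 z5_1 z5_2 z5_3 (by norm_num)

theorem beats4 : Beats 4 10 := by
  have hp := K_pos (ι := Fin 4)
  refine reduce (n := 9) (fn (Fin 4)) (fun i => ⟨some i, fn_some i⟩) (fun k m => (z4 k m : ℝ))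
    (signs z4 z4_1 z4_2) _ (4 / 5) hp.le (by positivity)
    (fun v a D hD => ?_) big convex_big (fun k p hp => ?_) ?_
  · have := sweepK v a D hD
    rw [Fintype.card_fin] at this
    convert this using 4
    norm_num
  · rw [mem_K] at hp
    refine ⟨add_coord (z4 k) (z4_2 k) p hp.1, ?_⟩
    have := abs_le.1 hp.2
    simp only [Pi.add_apply, Finset.sum_add_distrib, ← Int.cast_sum]
    rcases z4_3 k with h | h <;> rw [h] <;> push_cast <;> constructor <;> linarith [this.1, this.2]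
  · convert vol_big using 3
    norm_num

theorem beatsP (m : ℕ) (hm : 3 ≤ m) : Beats (3 + m) 6 := by
  have p3 := K_pos (ι := Fin 3)
  have pm := K_pos (ι := Fin m)
  refine reduce (n := 5) (gn m) (fun i => ?_)
    (fun k => (spl m).symm (fun i => (z3 k i : ℝ), 0)) (fun i j hij => ?_) _ (3 / 4)
    (mul_pos p3 pm).le (by positivity) (sweepP m hm)
    (spl m ⁻¹' (body (fn (Fin 3)) 2 ×ˢ body (fn (Fin m)) 1)) ?_ (fun k p hp => ?_) ?_
  · refine Fin.addCases (fun i => ⟨.inl (some i), fun x => ?_⟩)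
      (fun i => ⟨.inr (some i), fun x => ?_⟩) i
    · rw [gn_inl, fn_some, spl_apply]
    · rw [gn_inr, fn_some, spl_apply]
  · obtain ⟨c, h1, h2⟩ := signs z3 z3_1 z3_2 i j hij
    have e : ∀ k, (spl m).symm (fun i => (z3 k i : ℝ), 0) (Fin.castAdd m c) = z3 k c := by
      intro k
      have := congrArg (fun q => q.1 c) ((spl m).apply_symm_apply (fun i => (z3 k i : ℝ), 0))
      exact this
    exact ⟨Fin.castAdd m c, by rw [e, e]; exact h1, fun k => by rw [e]; exact h2 k⟩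
  · intro x hx y hy a b ha hb hab
    exact ⟨convex_body _ 2 hx.1 hy.1 ha hb hab, convex_body _ 1 hx.2 hy.2 ha hb hab⟩
  · have e : spl m ((spl m).symm (fun i => (z3 k i : ℝ), 0) + p) =
        spl m ((spl m).symm (fun i => (z3 k i : ℝ), 0)) + spl m p := rfl
    rw [mem_preimage, e, MeasurableEquiv.apply_symm_apply]
    refine ⟨add_K (z3 k) (z3_2 k) (z3_3 k) _ fun a => hp (.inl a), ?_⟩
    rw [Prod.snd_add, zero_add]
    exact fun a => hp (.inr a)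
  · rw [volP, ENNReal.ofReal_lt_ofReal_iff (by positivity)]
    have := mul_pos p3 pm
    push_cast
    linarith

theorem beats_all (d : ℕ) (hd : 3 ≤ d) : ∃ n, 1 < n ∧ n ≤ 20 ∧ Beats d n := by
  by_cases h : 6 ≤ d
  · obtain ⟨m, rfl⟩ : ∃ m, d = 3 + m := ⟨d - 3, by omega⟩
    exact ⟨6, by norm_num, by norm_num, beatsP m (by omega)⟩
  · have : d = 3 ∨ d = 4 ∨ d = 5 := by omega
    rcases this with rfl | rfl | rfl
    · exact ⟨6, by norm_num, by norm_num, beats3⟩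
    · exact ⟨10, by norm_num, by norm_num, beats4⟩
    · exact ⟨20, by norm_num, by norm_num, beats5⟩

end Pool.Agent.Lib.MP_3b2b47_co
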