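import Pool.Agent.Lib.MP_3b2b47_co.Kbody

set_option autoImplicit false

open MeasureTheory Set Filter Topology Pointwise

namespace Pool.Agent.Lib.MP_3b2b47_co

/-- simplex with corner u -/
def cor (u : Fin 4 → ℝ) (s : ℝ) : Set (Fin 4 → ℝ) := {x | (∀ i, u i ≤ x i) ∧ ∑ i, x i ≤ s}

theorem cor_ne_top : volume (cor 0 1) ≠ ⊤ := by
  refine vol_cube_ne_top 1 _ fun x hx i => ?_
  have h0 : ∀ j, 0 ≤ x j := hx.1
  rw [abs_of_nonneg (h0 i)]
  exact (Finset.single_le_sum (fun j _ => h0 j) (Finset.mem_univ i)).trans hx.2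

theorem vol_cor (u : Fin 4 → ℝ) (s : ℝ) (h : ∑ i, u i < s) :
    volume (cor u s) = ENNReal.ofReal ((s - ∑ i, u i) ^ 4 * volume.real (cor 0 1)) := by
  have hp : 0 < s - ∑ i, u i := by linarith
  have e : (fun x => u + x) ⁻¹' cor u s = (s - ∑ i, u i) • cor 0 1 := by
    ext x
    rw [mem_smul_set_iff_inv_smul_mem₀ hp.ne']
    simp only [cor, mem_preimage, mem_ofPred_eq, Pi.add_apply, le_add_iff_nonneg_right,
      Pi.zero_apply, Pi.smul_apply, smul_eq_mul, Finset.sum_add_distrib, ← Finset.mul_sum]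
    rw [inv_mul_le_iff₀ hp, mul_one]
    refine and_congr (forall_congr' fun i => ?_) ⟨fun g => by linarith, fun g => by linarith⟩
    exact (mul_nonneg_iff_of_pos_left (inv_pos.2 hp)).symm
  rw [← measure_preimage_add volume u, e, Measure.addHaar_smul_of_nonneg _ hp.le,
    ENNReal.ofReal_mul (by positivity), ofReal_measureReal cor_ne_top]
  simp

/-- the part of the cube below a hyperplane -/
def low (r s : ℝ) : Set (Fin 4 → ℝ) := {x | (∀ i, |x i| ≤ r) ∧ ∑ i, x i ≤ s}

theorem meas_low (r s : ℝ) : MeasurableSet (low r s) := by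
  unfold low
  measurability

theorem low_ne_top (r s : ℝ) : volume (low r s) ≠ ⊤ := vol_cube_ne_top r _ fun _ hx => hx.1

theorem vol_low (r s : ℝ) (hr : 0 < r) (h1 : -2 * r < s) (h2 : s ≤ 0) :
    volume.real (low r s) = ((s + 4 * r) ^ 4 - 4 * (s + 2 * r) ^ 4) * volume.real (cor 0 1) := by
  set c := volume.real (cor 0 1) with hc
  have hc0 : 0 ≤ c := measureReal_nonneg
  let u : Fin 4 → Fin 4 → ℝ := fun i j => if j = i then r else -r
  have su : ∀ i, ∑ j, u i j = -2 * r := by
    intro i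
    fin_cases i <;> simp [u, Fin.sum_univ_four] <;> ring
  let P : Fin 4 → Set (Fin 4 → ℝ) := fun i => cor (u i) s \ {x | x i = r}
  have vP : ∀ i, volume (P i) = ENNReal.ofReal ((s + 2 * r) ^ 4 * c) := by
    intro i
    have z : volume {x : Fin 4 → ℝ | x i = r} = 0 :=
      Measure.pi_hyperplane (fun _ => (volume : Measure ℝ)) i r
    simp only [P]
    rw [measure_sdiff_null z, vol_cor _ _ (by rw [su]; exact h1), su]
    congr 1; ring
  have mP : ∀ i, MeasurableSet (P i) := by
    intro i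
    simp only [P, cor]
    measurability
  have memP : ∀ i x, x ∈ P i ↔ (∀ j, -r ≤ x j) ∧ r < x i ∧ ∑ j, x j ≤ s := by
    intro i x
    simp only [P, cor, Set.mem_sdiff, mem_ofPred_eq, u]
    constructor
    · rintro ⟨⟨g1, g2⟩, g3⟩
      have g4 : r ≤ x i := by simpa using g1 i
      refine ⟨fun j => ?_, lt_of_le_of_ne g4 (Ne.symm g3), g2⟩
      have := g1 j
      split_ifs at this <;> linarith
    · rintro ⟨g1, g2, g3⟩
      refine ⟨⟨fun j => ?_, g3⟩, g2.ne'⟩
      split_ifs with g
      · rw [g]; exact g2.le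
      · exact g1 j
  have dP : Pairwise (Function.onFun Disjoint P) := by
    intro i j hij
    rw [Function.onFun, Set.disjoint_left]
    intro x a b
    obtain ⟨a1, a2, a3⟩ := (memP i x).1 a
    obtain ⟨-, b2, -⟩ := (memP j x).1 b
    have := a1 0
    have := a1 1
    have := a1 2
    have := a1 3
    rw [Fin.sum_univ_four] at a3
    fin_cases i <;> fin_cases j <;> simp at hij a2 b2 <;> linarith
  have fP : ∀ i, volume (P i) ≠ ⊤ := fun i => by rw [vP]; exact ENNReal.ofReal_ne_top
  have e : cor (fun _ => -r) s = low r s ∪ ⋃ i, P i := by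
    ext x
    simp only [cor, low, mem_union, mem_iUnion, memP, mem_ofPred_eq]
    constructor
    · rintro ⟨g1, g2⟩
      by_cases g : ∀ i, x i ≤ r
      · exact Or.inl ⟨fun i => abs_le.2 ⟨g1 i, g i⟩, g2⟩
      · push Not at g
        obtain ⟨i, hi⟩ := g
        exact Or.inr ⟨i, g1, hi, g2⟩
    · rintro (⟨g1, g2⟩ | ⟨i, g1, -, g2⟩)
      · exact ⟨fun i => (abs_le.1 (g1 i)).1, g2⟩
      · exact ⟨g1, g2⟩
  have dl : Disjoint (low r s) (⋃ i, P i) := by
    rw [Set.disjoint_left]
    intro x a b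
    obtain ⟨i, hi⟩ := mem_iUnion.1 b
    have := ((memP i x).1 hi).2.1
    have := (abs_le.1 (a.1 i)).2
    linarith
  have fU : volume (⋃ i, P i) ≠ ⊤ := by
    refine ne_top_of_le_ne_top ?_ (measure_iUnion_le _)
    rw [tsum_fintype]
    exact ENNReal.sum_ne_top.2 fun i _ => fP i
  have v1 : volume.real (cor (fun _ => -r) s) = (s + 4 * r) ^ 4 * c := by
    rw [measureReal_def, vol_cor _ _ (by simp; linarith), ENNReal.toReal_ofReal (by positivity)]
    simp only [Fin.sum_univ_four]
    ring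
  rw [e, measureReal_union dl (MeasurableSet.iUnion mP) (low_ne_top r s) fU,
    measureReal_iUnion_fintype dP mP fP] at v1
  have v2 : ∀ i, volume.real (P i) = (s + 2 * r) ^ 4 * c := fun i => by
    rw [measureReal_def, vP, ENNReal.toReal_ofReal (by positivity)]
  simp only [v2, Finset.sum_const, Finset.card_univ, Fintype.card_fin, nsmul_eq_mul] at v1
  push_cast at v1
  linarith

theorem vol_slab (r a b : ℝ) (hab : a ≤ b) :
    volume.real (low r b \ low r a) = volume.real (low r b) - volume.real (low r a) :=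
  measureReal_sdiff (fun _ hx => ⟨hx.1, hx.2.trans hab⟩) (meas_low r a) (low_ne_top r b)

theorem vol_neg (S : Set (Fin 4 → ℝ)) (hS : MeasurableSet S) :
    volume ((fun p : Fin 4 → ℝ => -p) ⁻¹' S) = volume S :=
  (Measure.measurePreserving_neg volume).measure_preimage hS.nullMeasurableSet

/-- the polytope that holds the cluster in dimension four -/
def big : Set (Fin 4 → ℝ) := {x | (∀ i, |x i| ≤ 2) ∧ -1 ≤ ∑ i, x i ∧ ∑ i, x i ≤ 3}

theorem vol_big : volume big < ENNReal.ofReal (volume.real (body (fn (Fin 4)) 1) * (77 / 5)) := by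
  set c := volume.real (cor 0 1) with hc
  have hc0 : 0 ≤ c := measureReal_nonneg
  have ms : ∀ r a b, MeasurableSet (low r b \ low r a) := fun r a b =>
    (meas_low r b).diff (meas_low r a)
  have fs : ∀ r a b, volume (low r b \ low r a) ≠ ⊤ := fun r a b =>
    measure_ne_top_of_subset sdiff_subset (low_ne_top r b)
  have hV : 229 * c ≤ volume.real (body (fn (Fin 4)) 1) := by
    have sub : (low 1 0 \ low 1 (-1)) ∪
        (fun p : Fin 4 → ℝ => -p) ⁻¹' (low 1 (-1 / 500) \ low 1 (-1)) ⊆ body (fn (Fin 4)) 1 := by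
      rintro x (⟨g1, g2⟩ | ⟨g1, g2⟩) <;> rw [mem_K]
      · refine ⟨g1.1, abs_le.2 ⟨?_, by linarith [g1.2]⟩⟩
        by_contra g
        exact g2 ⟨g1.1, by linarith⟩
      · have g3 : ∀ i, |x i| ≤ 1 := fun i => by simpa using g1.1 i
        have g4 := g1.2
        simp only [Pi.neg_apply, Finset.sum_neg_distrib] at g4
        refine ⟨g3, abs_le.2 ⟨by linarith, ?_⟩⟩
        by_contra g
        refine g2 ⟨g1.1, ?_⟩
        simp only [Pi.neg_apply, Finset.sum_neg_distrib]
        linarith
    have dj : Disjoint (low 1 0 \ low 1 (-1))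
        ((fun p : Fin 4 → ℝ => -p) ⁻¹' (low 1 (-1 / 500) \ low 1 (-1))) := by
      rw [Set.disjoint_left]
      rintro x ⟨g1, -⟩ ⟨g2, -⟩
      have g4 := g2.2
      simp only [Pi.neg_apply, Finset.sum_neg_distrib] at g4
      linarith [g1.2]
    have := measureReal_mono sub (K_ne_top 1)
    rw [measureReal_union dj ((ms _ _ _).preimage measurable_neg) (fs _ _ _)
      (by rw [vol_neg _ (ms _ _ _)]; exact fs _ _ _), measureReal_def _ (_ ⁻¹' _),
      vol_neg _ (ms _ _ _), ← measureReal_def, vol_slab _ _ _ (by norm_num),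
      vol_slab _ _ _ (by norm_num), vol_low _ _ one_pos (by norm_num) (by norm_num),
      vol_low _ _ one_pos (by norm_num) (by norm_num),
      vol_low _ _ one_pos (by norm_num) (by norm_num), ← hc] at this
    nlinarith
  have hW : volume.real big ≤ 3460 * c := by
    have sub : big ⊆ (low 2 0 \ low 2 (-501 / 500)) ∪
        (fun p : Fin 4 → ℝ => -p) ⁻¹' (low 2 0 \ low 2 (-1501 / 500)) := by
      rintro x ⟨g1, g2, g3⟩
      rcases le_total (∑ i, x i) 0 with g | g
      · exact Or.inl ⟨⟨g1, g⟩, fun k => by linarith [k.2]⟩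
      · refine Or.inr ⟨⟨fun i => by simpa using g1 i, ?_⟩, fun k => ?_⟩
        · simp only [Pi.neg_apply, Finset.sum_neg_distrib]
          linarith
        · have g4 := k.2
          simp only [Pi.neg_apply, Finset.sum_neg_distrib] at g4
          linarith
    have := (measureReal_mono sub (measure_union_ne_top (fs _ _ _)
      (by rw [vol_neg _ (ms _ _ _)]; exact fs _ _ _))).trans (measureReal_union_le _ _)
    rw [measureReal_def _ (_ ⁻¹' _),
      vol_neg _ (ms _ _ _), ← measureReal_def, vol_slab _ _ _ (by norm_num),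
      vol_slab _ _ _ (by norm_num), vol_low _ _ two_pos (by norm_num) (by norm_num),
      vol_low _ _ two_pos (by norm_num) (by norm_num),
      vol_low _ _ two_pos (by norm_num) (by norm_num), ← hc] at this
    nlinarith
  have p4 := K_pos (ι := Fin 4)
  have fb : volume big ≠ ⊤ := vol_cube_ne_top 2 _ fun _ hx => hx.1
  rw [← ofReal_measureReal fb, ENNReal.ofReal_lt_ofReal_iff (by positivity)]
  linarith

theorem convex_big : Convex ℝ big := by
  intro x hx y hy a b ha hb hab
  have k := convex_body (fun i : Fin 4 => (LinearMap.proj i : (Fin 4 → ℝ) →ₗ[ℝ] ℝ)) 2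
    (x := x) hx.1 (y := y) hy.1 ha hb hab
  refine ⟨k, ?_, ?_⟩ <;>
    simp only [Pi.add_apply, Pi.smul_apply, smul_eq_mul, Finset.sum_add_distrib, ← Finset.mul_sum]
  · nlinarith [hx.2.1, hy.2.1]
  · nlinarith [hx.2.2, hy.2.2]

end Pool.Agent.Lib.MP_3b2b47_co
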