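import Pool.Agent.Lib.MP_3b2b47_co.Sweep

set_option autoImplicit false

open MeasureTheory Set Filter Topology Pointwise

namespace Pool.Agent.Lib.MP_3b2b47_co

/-- the coordinates and minus their sum -/
noncomputable def fn (ι : Type) [Fintype ι] : Option ι → (ι → ℝ) →ₗ[ℝ] ℝ
  | none => -∑ i, LinearMap.proj i
  | some i => LinearMap.proj i

variable {ι : Type} [Fintype ι]

theorem fn_none (x : ι → ℝ) : fn ι none x = -∑ i, x i := by simp [fn]

theorem fn_some (i : ι) (x : ι → ℝ) : fn ι (some i) x = x i := by simp [fn]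

theorem fn_sum (x : ι → ℝ) : ∑ a, fn ι a x = 0 := by
  rw [Fintype.sum_option]; simp [fn_none, fn_some]

theorem mem_K (r : ℝ) (x : ι → ℝ) :
    x ∈ body (fn ι) r ↔ (∀ i, |x i| ≤ r) ∧ |∑ i, x i| ≤ r := by
  simp [body, Option.forall, fn_none, fn_some, and_comm]

theorem vol_cube_ne_top (r : ℝ) (S : Set (ι → ℝ)) (h : ∀ x ∈ S, ∀ i, |x i| ≤ r) :
    volume S ≠ ⊤ := by
  refine measure_ne_top_of_subset (t := S) (s := Icc (fun _ => -r) (fun _ => r)) ?_
    (isCompact_Icc.measure_lt_top.ne)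
  intro x hx
  exact ⟨fun i => (abs_le.1 (h x hx i)).1, fun i => (abs_le.1 (h x hx i)).2⟩

theorem K_ne_top (r : ℝ) : volume (body (fn ι) r) ≠ ⊤ :=
  vol_cube_ne_top r _ fun x hx => ((mem_K r x).1 hx).1

theorem K_pos : 0 < volume.real (body (fn ι) 1) := by
  refine ENNReal.toReal_pos ?_ (K_ne_top 1)
  have hO : IsOpen {x : ι → ℝ | ‖x‖ < 1 ∧ |∑ i, x i| < 1} := by
    have o1 : IsOpen {x : ι → ℝ | ‖x‖ < 1} := by apply isOpen_lt <;> fun_prop
    have o2 : IsOpen {x : ι → ℝ | |∑ i, x i| < 1} := by apply isOpen_lt <;> fun_prop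
    exact o1.inter o2
  have h1 := hO.measure_pos volume ⟨0, by simp⟩
  refine (lt_of_lt_of_le h1 (measure_mono fun x hx => (mem_K 1 x).2 ⟨fun i => ?_, hx.2.le⟩)).ne'
  exact (norm_le_pi_norm x i).trans hx.1.le

theorem K_two : volume (body (fn ι) 2) =
    ENNReal.ofReal (2 ^ Fintype.card ι * volume.real (body (fn ι) 1)) := by
  have : body (fn ι) 2 = (2 : ℝ) • body (fn ι) 1 := by
    ext x
    rw [mem_smul_set_iff_inv_smul_mem₀ (by norm_num)]
    simp only [body, mem_ofPred_eq, map_smul, smul_eq_mul, abs_mul]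
    refine forall_congr' fun a => ?_
    rw [abs_of_pos (by norm_num : (0 : ℝ) < 2⁻¹)]
    constructor <;> intro h <;> linarith
  rw [this, Measure.addHaar_smul_of_nonneg _ (by norm_num), Module.finrank_fintype_fun_eq_card,
    ENNReal.ofReal_mul (by positivity), ofReal_measureReal (K_ne_top 1)]

theorem sweepK [Nontrivial ι] (v : ι → ℝ) (a1 : Option ι) (D : Set (ι → ℝ))
    (hD : ∀ p ∈ body (fn ι) 1, ∀ t : ℝ, 0 ≤ t → t ≤ 1 → p + t • v ∈ D) :
    ENNReal.ofReal (volume.real (body (fn ι) 1) *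
      (1 + Fintype.card ι / (Fintype.card ι + 1) * |fn ι a1 v|)) ≤ volume D := by
  classical
  have := sweep volume (fn ι) none ?_ ?_ fn_sum (K_ne_top 1) v a1 D hD
  · simpa [Module.finrank_fintype_fun_eq_card] using this
  · intro a
    let T : (ι → ℝ) →ₗ[ℝ] (ι → ℝ) := LinearMap.pi fun j => fn ι (Equiv.swap a none (some j))
    have hT : ∀ b x, fn ι b (T x) = fn ι (Equiv.swap a none b) x := by
      intro b x
      cases b with
      | some j => simp [fn_some, T]
      | none =>
        have h1 : ∑ b, fn ι (Equiv.swap a none b) x = 0 := by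
          rw [Equiv.sum_comp (Equiv.swap a none) fun b => fn ι b x, fn_sum]
        rw [Fintype.sum_option] at h1
        rw [fn_none]
        simp only [T, LinearMap.pi_apply]
        linarith
    refine ⟨T, ?_, hT⟩
    have h2 : T ∘ₗ T = LinearMap.id := by
      refine LinearMap.ext fun x => funext fun j => ?_
      have := hT (some j) (T x)
      rw [hT (Equiv.swap a none (some j)), Equiv.swap_apply_self, fn_some, fn_some] at this
      simpa using this
    have h3 := congrArg LinearMap.det h2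
    rw [LinearMap.det_comp, LinearMap.det_id] at h3
    rcases mul_self_eq_one_iff.1 h3 with h | h <;> simp [h]
  · have k : ∀ i : ι, ∃ x : ι → ℝ, |fn ι none x| ≠ |fn ι (some i) x| := by
      intro i
      obtain ⟨j, hj⟩ := exists_ne i
      exact ⟨Pi.single j 1, by simp [fn_none, fn_some, hj.symm]⟩
    intro a b hab
    cases a with
    | none =>
      cases b with
      | none => exact absurd rfl hab
      | some j => exact k j
    | some i =>
      cases b with
      | none => exact (k i).imp fun x h => h.symm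
      | some j =>
        have : j ≠ i := fun e => hab (by rw [e])
        exact ⟨Pi.single i 1, by simp [fn_some, this]⟩

/-- Fubini bound for a swept product -/
theorem prod_sweep {E F : Type} [NormedAddCommGroup E] [NormedSpace ℝ E] [MeasurableSpace E]
    [NormedAddCommGroup F] [NormedSpace ℝ F] [MeasurableSpace F] [BorelSpace F]
    (μ : Measure E) (ν : Measure F) [SFinite ν] [ν.IsAddRightInvariant]
    (K : Set E) (L : Set F) (v : E) (w : F) (a : ENNReal)
    (h : ∀ D : Set E, (∀ p ∈ K, ∀ t : ℝ, 0 ≤ t → t ≤ 1 → p + t • v ∈ D) → a ≤ μ D)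
    (D : Set (E × F))
    (hD : ∀ p ∈ K, ∀ q ∈ L, ∀ t : ℝ, 0 ≤ t → t ≤ 1 → (p + t • v, q + t • w) ∈ D) :
    ν L * a ≤ μ.prod ν D := by
  rw [← measure_toMeasurable D]
  have hm := measurableSet_toMeasurable (μ.prod ν) D
  rw [Measure.prod_apply hm]
  refine le_trans ?_ (mul_meas_ge_le_lintegral (measurable_measure_prodMk_left hm) (ν L))
  refine mul_le_mul_right (h _ fun p hp t h0 h1 => ?_) _
  rw [mem_ofPred_eq, ← measure_preimage_add_right ν (t • w) (Prod.mk _ ⁻¹' _)]
  exact measure_mono fun q hq => subset_toMeasurable _ _ (hD p hp q hq t h0 h1)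

/-- the functionals of the product of the 3-dimensional and the m-dimensional body -/
noncomputable def gn (m : ℕ) : Option (Fin 3) ⊕ Option (Fin m) → (Fin (3 + m) → ℝ) →ₗ[ℝ] ℝ
  | .inl a => fn (Fin 3) a ∘ₗ LinearMap.funLeft ℝ ℝ (Fin.castAdd m)
  | .inr b => fn (Fin m) b ∘ₗ LinearMap.funLeft ℝ ℝ (Fin.natAdd 3)

/-- splitting of the coordinates -/
noncomputable def spl (m : ℕ) : (Fin (3 + m) → ℝ) ≃ᵐ (Fin 3 → ℝ) × (Fin m → ℝ) :=
  (MeasurableEquiv.piCongrLeft (fun _ => ℝ) finSumFinEquiv).symm.trans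
    (MeasurableEquiv.sumPiEquivProdPi fun _ => ℝ)

theorem spl_apply (m : ℕ) (x : Fin (3 + m) → ℝ) :
    spl m x = (fun i => x (Fin.castAdd m i), fun j => x (Fin.natAdd 3 j)) := rfl

theorem spl_mp (m : ℕ) : MeasurePreserving (spl m) volume (volume.prod volume) :=
  (volume_measurePreserving_sumPiEquivProdPi fun _ : Fin 3 ⊕ Fin m => ℝ).comp
    (volume_measurePreserving_piCongrLeft (fun _ : Fin (3 + m) => ℝ) finSumFinEquiv).symm

theorem gn_inl (m : ℕ) (a : Option (Fin 3)) (x : Fin (3 + m) → ℝ) :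
    gn m (.inl a) x = fn (Fin 3) a (spl m x).1 := rfl

theorem gn_inr (m : ℕ) (a : Option (Fin m)) (x : Fin (3 + m) → ℝ) :
    gn m (.inr a) x = fn (Fin m) a (spl m x).2 := rfl

theorem sweepP (m : ℕ) (hm : 3 ≤ m) (v : Fin (3 + m) → ℝ) (a : Option (Fin 3) ⊕ Option (Fin m))
    (D : Set (Fin (3 + m) → ℝ))
    (hD : ∀ p ∈ body (gn m) 1, ∀ t : ℝ, 0 ≤ t → t ≤ 1 → p + t • v ∈ D) :
    ENNReal.ofReal (volume.real (body (fn (Fin 3)) 1) * volume.real (body (fn (Fin m)) 1) *
      (1 + 3 / 4 * |gn m a v|)) ≤ volume D := by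
  have : Nontrivial (Fin m) := Fin.nontrivial_iff_two_le.2 (by omega)
  have e : volume D = (volume.prod volume) ((spl m).symm ⁻¹' D) :=
    ((spl_mp m).symm.measure_preimage_equiv D).symm
  have hD' : ∀ p ∈ body (fn (Fin 3)) 1, ∀ q ∈ body (fn (Fin m)) 1, ∀ t : ℝ, 0 ≤ t → t ≤ 1 →
      (p + t • (spl m v).1, q + t • (spl m v).2) ∈ (spl m).symm ⁻¹' D := by
    intro p hp q hq t h0 h1
    have h2 : (spl m).symm (p, q) ∈ body (gn m) 1 := by
      rintro (a | a)
      · rw [gn_inl, MeasurableEquiv.apply_symm_apply]; exact hp a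
      · rw [gn_inr, MeasurableEquiv.apply_symm_apply]; exact hq a
    have h3 := hD _ h2 t h0 h1
    rw [mem_preimage]
    convert h3 using 1
    apply (spl m).injective
    have h4 : spl m ((spl m).symm (p, q) + t • v) = spl m ((spl m).symm (p, q)) + t • spl m v := rfl
    rw [h4, MeasurableEquiv.apply_symm_apply, MeasurableEquiv.apply_symm_apply]
    rfl
  have p3 := K_pos (ι := Fin 3)
  have pm := K_pos (ι := Fin m)
  rw [e]
  rcases a with a | a
  · have := prod_sweep volume volume _ _ _ _ _ (sweepK (spl m v).1 a) _ hD'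
    refine le_trans (le_of_eq ?_) this
    rw [← ofReal_measureReal (K_ne_top (ι := Fin m) 1), ← ENNReal.ofReal_mul pm.le, gn_inl]
    congr 1
    simp only [Fintype.card_fin]
    push_cast
    ring
  · have := prod_sweep volume volume _ _ _ _ _ (sweepK (spl m v).2 a)
      (Prod.swap ⁻¹' ((spl m).symm ⁻¹' D)) (fun q hq p hp t h0 h1 => hD' p hp q hq t h0 h1)
    rw [Measure.measurePreserving_swap.measure_preimage_emb
      (MeasurableEquiv.prodComm.measurableEmbedding)] at this
    refine le_trans ?_ this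
    rw [← ofReal_measureReal (K_ne_top (ι := Fin 3) 1), ← ENNReal.ofReal_mul p3.le, gn_inr]
    refine ENNReal.ofReal_le_ofReal ?_
    rw [mul_assoc, Fintype.card_fin]
    have h5 : (3 : ℝ) / 4 ≤ m / (m + 1) := by
      have : (3 : ℝ) ≤ m := by exact_mod_cast hm
      rw [div_le_div_iff₀ (by norm_num) (by positivity)]
      linarith
    gcongr

theorem volP (m : ℕ) : volume (spl m ⁻¹' (body (fn (Fin 3)) 2 ×ˢ body (fn (Fin m)) 1)) =
    ENNReal.ofReal (8 * (volume.real (body (fn (Fin 3)) 1) * volume.real (body (fn (Fin m)) 1))) := by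
  rw [(spl_mp m).measure_preimage_equiv, Measure.prod_prod, K_two,
    ← ofReal_measureReal (K_ne_top (ι := Fin m) 1),
    ← ENNReal.ofReal_mul (mul_nonneg (by positivity) measureReal_nonneg)]
  congr 1
  simp only [Fintype.card_fin]
  ring

end Pool.Agent.Lib.MP_3b2b47_co
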