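import Pool.Agent.Lib.MP_3b2b47_co.Vol

set_option autoImplicit false

open MeasureTheory Set

namespace Pool.Agent.Lib.MP_3b2b47_co

abbrev E3 := EuclideanSpace ℝ (Fin 3)

/-- the regular octahedron of radius r in Euclidean 3-space -/
def octE (r : ℝ) : Set E3 := {p | |p 0| + |p 1| + |p 2| ≤ r}

theorem convex_octE (r : ℝ) : Convex ℝ (octE r) := by
  intro p hp q hq a b ha hb hab
  simp only [octE, mem_ofPred_eq, PiLp.add_apply, PiLp.smul_apply, smul_eq_mul] at hp hq ⊢
  have h : ∀ u w : ℝ, |a * u + b * w| ≤ a * |u| + b * |w| := by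
    intro u w
    refine (abs_add_le _ _).trans ?_
    rw [abs_mul, abs_mul, abs_of_nonneg ha, abs_of_nonneg hb]
  have h0 := h (p 0) (q 0)
  have h1 := h (p 1) (q 1)
  have h2 := h (p 2) (q 2)
  have h3 := mul_le_mul_of_nonneg_left hp ha
  have h4 := mul_le_mul_of_nonneg_left hq hb
  have h5 : a * r + b * r = r := by rw [← add_mul, hab, one_mul]
  linarith

theorem compact_octE : IsCompact (octE 1) := by
  apply Metric.isCompact_of_isClosed_isBounded
  · unfold octE
    apply isClosed_le <;> fun_prop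
  · refine (Metric.isBounded_closedBall (x := (0 : E3)) (r := 1)).subset ?_
    intro p hp
    simp only [octE, mem_ofPred_eq] at hp
    rw [mem_closedBall_zero_iff, EuclideanSpace.norm_eq, Real.sqrt_le_one, Fin.sum_univ_three]
    simp only [Real.norm_eq_abs]
    have h0 := abs_nonneg (p 0)
    have h1 := abs_nonneg (p 1)
    have h2 := abs_nonneg (p 2)
    nlinarith [mul_nonneg h0 h1, mul_nonneg h1 h2, mul_nonneg h0 h2]

theorem interior_octE : (interior (octE 1)).Nonempty := by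
  refine ⟨0, ?_⟩
  have hO : IsOpen {p : E3 | |p 0| + |p 1| + |p 2| < 1} := by
    apply isOpen_lt <;> fun_prop
  refine interior_maximal (s := octE 1) (fun p hp => ?_) hO ?_
  · have hp' : |p 0| + |p 1| + |p 2| < 1 := hp
    exact le_of_lt hp'
  · simp

theorem vol_transfer (H : Set E3) :
    volume ((fun p : Fin 3 → ℝ => (WithLp.toLp 2 p : E3)) ⁻¹' H) = volume H :=
  (PiLp.volume_preserving_toLp (Fin 3)).measure_preimage_emb
    (MeasurableEquiv.toLp 2 (Fin 3 → ℝ)).measurableEmbedding H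

theorem vol_octE_two : volume (octE 2) = ENNReal.ofReal (32 / 3) := by
  rw [← vol_transfer]
  have : ((fun p : Fin 3 → ℝ => (WithLp.toLp 2 p : E3)) ⁻¹' octE 2) = oct 2 := rfl
  rw [this, vol_oct, ← ENNReal.ofReal_pow (by norm_num), ← ENNReal.ofReal_mul (by norm_num)]
  norm_num

/-- a convex set holding two translates of the octahedron has volume at least 4/3 plus the
l1 distance of their centres -/
theorem vol_two (a b : E3) (H : Set E3) (hH : Convex ℝ H) (ha : ∀ v ∈ octE 1, a + v ∈ H)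
    (hb : ∀ v ∈ octE 1, b + v ∈ H) :
    ENNReal.ofReal (4 / 3 + (|(b - a) 0| + |(b - a) 1| + |(b - a) 2|)) ≤ volume H := by
  rw [← measure_preimage_add volume a H, ← vol_transfer]
  refine vol_sweep (WithLp.ofLp (b - a)) _ ?_
  intro p hp t h0 h1
  have hp' : (WithLp.toLp 2 p : E3) ∈ octE 1 := hp
  have := hH (ha _ hp') (hb _ hp') (sub_nonneg.2 h1) h0 (by ring)
  simp only [mem_preimage]
  convert this using 1
  ext i
  simp
  ring

/-- separated translates have centres at l1 distance at least 2 -/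
theorem sep_dist (a b : E3) (f : E3 →L[ℝ] ℝ) (c : ℝ) (hf : f ≠ 0)
    (ha : ∀ v ∈ octE 1, f (a + v) ≤ c) (hb : ∀ v ∈ octE 1, c ≤ f (b + v)) :
    2 ≤ |(b - a) 0| + |(b - a) 1| + |(b - a) 2| := by
  by_contra hlt
  push Not at hlt
  set δ := b - a with hδ
  set ε : ℝ := 1 - (|δ 0| + |δ 1| + |δ 2|) / 2 with hε
  have hεpos : 0 < ε := by linarith
  have key : ∀ η : E3, η ∈ octE 1 → f η ≤ 0 := by
    intro η hη
    have hv : (1 / 2 : ℝ) • δ + ε • η ∈ octE 1 := by
      simp only [octE, mem_ofPred_eq, PiLp.add_apply, PiLp.smul_apply, smul_eq_mul] at hη ⊢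
      have h : ∀ u w : ℝ, |1 / 2 * u + ε * w| ≤ |u| / 2 + ε * |w| := by
        intro u w
        refine (abs_add_le _ _).trans ?_
        rw [abs_mul, abs_mul, abs_of_pos hεpos, abs_of_pos (by norm_num : (0 : ℝ) < 1 / 2)]
        linarith
      have h0 := h (δ 0) (η 0)
      have h1 := h (δ 1) (η 1)
      have h2 := h (δ 2) (η 2)
      have h3 := mul_le_mul_of_nonneg_left hη hεpos.le
      linarith
    have hw : -((1 / 2 : ℝ) • δ + ε • η) ∈ octE 1 := by
      simpa only [octE, mem_ofPred_eq, PiLp.neg_apply, abs_neg] using hv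
    have h := (ha _ hv).trans (hb _ hw)
    have hb' : b = a + δ := by simp [hδ]
    rw [hb'] at h
    simp only [map_add, map_neg, map_smul, smul_eq_mul] at h
    nlinarith
  apply hf
  ext p
  have hs : ∀ i : Fin 3, f (EuclideanSpace.single i 1) = 0 := by
    intro i
    have m1 : (EuclideanSpace.single i 1 : E3) ∈ octE 1 := by
      fin_cases i <;> simp [octE]
    have m2 : -(EuclideanSpace.single i 1 : E3) ∈ octE 1 := by
      simpa only [octE, mem_ofPred_eq, PiLp.neg_apply, abs_neg] using m1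
    have k1 := key _ m1
    have k2 := key _ m2
    rw [map_neg] at k2
    linarith
  have hp : p = p 0 • (EuclideanSpace.single 0 1 : E3) + p 1 • (EuclideanSpace.single 1 1 : E3) +
      p 2 • (EuclideanSpace.single 2 1 : E3) := by
    ext i
    fin_cases i <;> simp
  rw [hp]
  simp [hs]

theorem spread (ρ : Fin 6 → ℝ) (h : ∀ i j, i ≠ j → 2 ≤ |ρ j - ρ i|) :
    ∃ i j, 10 ≤ |ρ j - ρ i| := by
  let σ := Tuple.sort ρ
  have hm : Monotone (ρ ∘ σ) := Tuple.monotone_sort ρ
  have step : ∀ i j : Fin 6, i < j → 2 ≤ ρ (σ j) - ρ (σ i) := by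
    intro i j hij
    have h1 := h (σ i) (σ j) (fun e => hij.ne (σ.injective e))
    have h2 : ρ (σ i) ≤ ρ (σ j) := hm hij.le
    rwa [abs_of_nonneg (by linarith)] at h1
  refine ⟨σ 0, σ 5, le_trans ?_ (le_abs_self _)⟩
  have s0 := step 0 1 (by decide)
  have s1 := step 1 2 (by decide)
  have s2 := step 2 3 (by decide)
  have s3 := step 3 4 (by decide)
  have s4 := step 4 5 (by decide)
  linarith

theorem sausage_vol (y : Fin 6 → E3) (hc : Collinear ℝ (range y))
    (hs : ∀ i j, i ≠ j → 2 ≤ |(y j - y i) 0| + |(y j - y i) 1| + |(y j - y i) 2|) :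
    ENNReal.ofReal (34 / 3) ≤ volume (convexHull ℝ (⋃ i, (fun v => y i + v) '' octE 1)) := by
  obtain ⟨p₀, u, hu⟩ := (collinear_iff_exists_forall_eq_smul_vadd _).1 hc
  choose r hr using fun i => hu (y i) (mem_range_self i)
  have hd : ∀ i j, |(y j - y i) 0| + |(y j - y i) 1| + |(y j - y i) 2| =
      |r j * (|u 0| + |u 1| + |u 2|) - r i * (|u 0| + |u 1| + |u 2|)| := by
    intro i j
    have e : y j - y i = (r j - r i) • u := by
      rw [hr i, hr j, vadd_eq_add, vadd_eq_add, sub_smul]; abel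
    rw [e, ← sub_mul, abs_mul, abs_of_nonneg (by positivity : 0 ≤ |u 0| + |u 1| + |u 2|)]
    simp only [PiLp.smul_apply, smul_eq_mul, abs_mul]
    ring
  obtain ⟨i, j, hij⟩ := spread (fun i => r i * (|u 0| + |u 1| + |u 2|))
    (fun i j h => by rw [← hd]; exact hs i j h)
  rw [← hd] at hij
  refine le_trans ?_ (vol_two (y i) (y j) _ (convex_convexHull ℝ _) ?_ ?_)
  · apply ENNReal.ofReal_le_ofReal
    linarith
  · intro v hv
    exact subset_convexHull ℝ _ (mem_iUnion.2 ⟨i, v, hv, rfl⟩)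
  · intro v hv
    exact subset_convexHull ℝ _ (mem_iUnion.2 ⟨j, v, hv, rfl⟩)

/-- the six centres, with integer coordinates -/
def cz : Fin 6 → Fin 3 → ℤ :=
  ![![1, 0, 0], ![-1, 0, 0], ![0, 1, 0], ![0, -1, 0], ![0, 0, 1], ![0, 0, -1]]

/-- the signs of the separating plane for the pair i, j -/
def sg (i j : Fin 6) (m : Fin 3) : ℤ := if cz j m - cz i m < 0 then -1 else 1

/-- value of the separating functional of i, j at the centre k -/
def val (i j k : Fin 6) : ℤ := sg i j 0 * cz k 0 + sg i j 1 * cz k 1 + sg i j 2 * cz k 2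

theorem val_facts : ∀ i j : Fin 6, i ≠ j →
    val i j i = -1 ∧ val i j j = 1 ∧ ∀ k, val i j k = -1 ∨ val i j k = 1 := by
  decide

theorem cz_norm : ∀ k : Fin 6, |cz k 0| + |cz k 1| + |cz k 2| = 1 := by decide

/-- the six centres -/
noncomputable def ctr (k : Fin 6) : E3 := WithLp.toLp 2 fun m => (cz k m : ℝ)

theorem cluster_sep (i j : Fin 6) (hij : i ≠ j) : ∃ f : E3 →L[ℝ] ℝ, ∃ c : ℝ, f ≠ 0 ∧
    (∀ v ∈ octE 1, f (ctr i + v) ≤ c) ∧ (∀ v ∈ octE 1, c ≤ f (ctr j + v)) ∧
    ∀ k : Fin 6, (∀ v ∈ octE 1, f (ctr k + v) ≤ c) ∨ (∀ v ∈ octE 1, c ≤ f (ctr k + v)) := by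
  obtain ⟨h1, h2, h3⟩ := val_facts i j hij
  let f : E3 →L[ℝ] ℝ := (sg i j 0 : ℝ) • EuclideanSpace.proj 0 +
    (sg i j 1 : ℝ) • EuclideanSpace.proj 1 + (sg i j 2 : ℝ) • EuclideanSpace.proj 2
  have hf : ∀ p : E3, f p = sg i j 0 * p 0 + sg i j 1 * p 1 + sg i j 2 * p 2 := by
    intro p; simp [f]
  have hk : ∀ k, f (ctr k) = (val i j k : ℝ) := by
    intro k; rw [hf]; simp [ctr, val]
  have hs : ∀ m, |(sg i j m : ℝ)| = 1 := by
    intro m; unfold sg; split_ifs <;> simp
  have hv : ∀ v ∈ octE 1, |f v| ≤ 1 := by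
    intro v hv
    rw [hf]
    refine (abs_add_three _ _ _).trans ?_
    simp only [abs_mul, hs, one_mul]
    exact hv
  have lo : ∀ k, val i j k = -1 → ∀ v ∈ octE 1, f (ctr k + v) ≤ 0 := by
    intro k h v hv'
    rw [map_add, hk, h]
    have := (abs_le.1 (hv v hv')).2
    push_cast; linarith
  have hi : ∀ k, val i j k = 1 → ∀ v ∈ octE 1, 0 ≤ f (ctr k + v) := by
    intro k h v hv'
    rw [map_add, hk, h]
    have := (abs_le.1 (hv v hv')).1
    push_cast; linarith
  refine ⟨f, 0, ?_, lo i h1, hi j h2, fun k => (h3 k).imp (lo k) (hi k)⟩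
  intro h0
  have := hk j
  rw [h0, h2] at this
  simp at this

theorem cluster_vol :
    volume (convexHull ℝ (⋃ i, (fun v => ctr i + v) '' octE 1)) ≤ ENNReal.ofReal (32 / 3) := by
  rw [← vol_octE_two]
  refine measure_mono (convexHull_min ?_ (convex_octE 2))
  intro p hp
  obtain ⟨k, v, hv, rfl⟩ := mem_iUnion.1 hp
  have h : |(cz k 0 : ℝ)| + |(cz k 1 : ℝ)| + |(cz k 2 : ℝ)| = 1 := by exact_mod_cast cz_norm k
  simp only [octE, mem_ofPred_eq, ctr, PiLp.add_apply] at hv ⊢
  have h0 := abs_add_le (cz k 0 : ℝ) (v 0)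
  have h1 := abs_add_le (cz k 1 : ℝ) (v 1)
  have h2 := abs_add_le (cz k 2 : ℝ) (v 2)
  linarith

end Pool.Agent.Lib.MP_3b2b47_co
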