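import Mathlib
import Pool.Agent.Lib.MP_3b2b47_co.Main

namespace Pool.Agent.Lib.MP_3b2b47_co.Octahedron

open Set MeasureTheory Filter Topology Pointwise Pool.Agent.Lib.MP_3b2b47_co

lemma ne_of_le (f : E3 →L[ℝ] ℝ) (hf : f ≠ 0) (c : ℝ) (S : Set E3) (h : ∀ p ∈ S, f p ≤ c)
    (p : E3) (hp : p ∈ interior S) : f p ≠ c := by
  intro e
  obtain ⟨u, hu⟩ : ∃ u, f u ≠ 0 := by
    by_contra hn
    push Not at hn
    exact hf (ContinuousLinearMap.ext hn)
  have hc : Tendsto (fun t : ℝ => p + (t / f u) • u) (𝓝 0) (𝓝 p) := by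
    have : Continuous fun t : ℝ => p + (t / f u) • u := by fun_prop
    simpa using this.tendsto 0
  have h1 : ∀ᶠ t : ℝ in 𝓝[>] 0, p + (t / f u) • u ∈ S :=
    (hc.eventually (mem_interior_iff_mem_nhds.1 hp)).filter_mono nhdsWithin_le_nhds
  obtain ⟨t, h2, h3⟩ := (h1.and self_mem_nhdsWithin).exists
  have h4 := h _ h2
  rw [map_add, map_smul, smul_eq_mul, div_mul_cancel₀ _ hu, e] at h4
  have h5 : 0 < t := h3
  linarith

lemma ne_of_ge (f : E3 →L[ℝ] ℝ) (hf : f ≠ 0) (c : ℝ) (S : Set E3) (h : ∀ p ∈ S, c ≤ f p)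
    (p : E3) (hp : p ∈ interior S) : f p ≠ c := by
  have := ne_of_le (-f) (neg_ne_zero.2 hf) (-c) S (fun q hq => by simpa using h q hq) p hp
  simpa using this

lemma mid (a q : E3) (h : |(q - a) 0| + |(q - a) 1| + |(q - a) 2| < 1) :
    q ∈ interior (a +ᵥ octE 1) := by
  have hO : IsOpen {p : E3 | |(p - a) 0| + |(p - a) 1| + |(p - a) 2| < 1} := by
    apply isOpen_lt <;> fun_prop
  refine interior_maximal (fun p hp => ?_) hO h
  have h1 : |(p - a) 0| + |(p - a) 1| + |(p - a) 2| < 1 := hp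
  exact ⟨p - a, h1.le, by simp⟩

lemma far (a b : E3) (h : Disjoint (interior (a +ᵥ octE 1)) (interior (b +ᵥ octE 1))) :
    2 ≤ |(b - a) 0| + |(b - a) 1| + |(b - a) 2| := by
  by_contra hlt
  push Not at hlt
  have e1 : ∀ m, |(a + (1 / 2 : ℝ) • (b - a) - a) m| = |(b - a) m| / 2 := by
    intro m
    rw [add_sub_cancel_left, PiLp.smul_apply, smul_eq_mul, abs_mul, abs_of_pos (by norm_num)]
    ring
  have e2 : ∀ m, |(a + (1 / 2 : ℝ) • (b - a) - b) m| = |(b - a) m| / 2 := by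
    intro m
    have : a + (1 / 2 : ℝ) • (b - a) - b = (-1 / 2 : ℝ) • (b - a) := by module
    rw [this, PiLp.smul_apply, smul_eq_mul, abs_mul, abs_of_neg (by norm_num)]
    ring
  refine disjoint_left.1 h (mid a (a + (1 / 2 : ℝ) • (b - a)) ?_) (mid b _ ?_)
  · rw [e1, e1, e1]; linarith
  · rw [e2, e2, e2]; linarith

/-- the translates x i + C have pairwise disjoint interiors -/
def Packing {d n : ℕ} (C : Set (EuclideanSpace ℝ (Fin d)))
    (x : Fin n → EuclideanSpace ℝ (Fin d)) : Prop :=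
  ∀ i j, i ≠ j → Disjoint (interior (x i +ᵥ C)) (interior (x j +ᵥ C))

/-- any two translates are separated by a hyperplane that meets the interior of no translate -/
def Separable {d n : ℕ} (C : Set (EuclideanSpace ℝ (Fin d)))
    (x : Fin n → EuclideanSpace ℝ (Fin d)) : Prop :=
  ∀ i j, i ≠ j → ∃ (f : EuclideanSpace ℝ (Fin d) →L[ℝ] ℝ) (c : ℝ), f ≠ 0 ∧
    (∀ p ∈ x i +ᵥ C, f p ≤ c) ∧ (∀ p ∈ x j +ᵥ C, c ≤ f p) ∧
    ∀ k, ∀ p ∈ interior (x k +ᵥ C), f p ≠ c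

/-- volume of the convex hull of the union of the translates -/
noncomputable def hullVol {d n : ℕ} (C : Set (EuclideanSpace ℝ (Fin d)))
    (x : Fin n → EuclideanSpace ℝ (Fin d)) : ENNReal :=
  volume (convexHull ℝ (⋃ i, x i +ᵥ C))

theorem result : ∃ (C : Set (EuclideanSpace ℝ (Fin 3))) (x : Fin 6 → EuclideanSpace ℝ (Fin 3)),
    C = {p | |p 0| + |p 1| + |p 2| ≤ 1} ∧
    Convex ℝ C ∧ IsCompact C ∧ (interior C).Nonempty ∧ C = -C ∧
    Packing C x ∧ Separable C x ∧ hullVol C x ≤ ENNReal.ofReal (32 / 3) ∧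
    ∀ y : Fin 6 → EuclideanSpace ℝ (Fin 3), Collinear ℝ (Set.range y) → Packing C y →
      ENNReal.ofReal (34 / 3) ≤ hullVol C y := by
  have key : ∀ i j, i ≠ j → ∃ (f : E3 →L[ℝ] ℝ) (c : ℝ), f ≠ 0 ∧
      (∀ p ∈ ctr i +ᵥ octE 1, f p ≤ c) ∧ (∀ p ∈ ctr j +ᵥ octE 1, c ≤ f p) ∧
      ∀ k, ∀ p ∈ interior (ctr k +ᵥ octE 1), f p ≠ c := by
    intro i j hij
    obtain ⟨f, c, hf, ha, hb, hk⟩ := cluster_sep i j hij
    refine ⟨f, c, hf, ?_, ?_, fun k => ?_⟩
    · rintro p ⟨v, hv, rfl⟩; exact ha v hv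
    · rintro p ⟨v, hv, rfl⟩; exact hb v hv
    · rcases hk k with h | h
      · exact ne_of_le f hf c _ (by rintro p ⟨v, hv, rfl⟩; exact h v hv)
      · exact ne_of_ge f hf c _ (by rintro p ⟨v, hv, rfl⟩; exact h v hv)
  refine ⟨octE 1, ctr, rfl, convex_octE 1, compact_octE, interior_octE, ?_, ?_, key,
    cluster_vol, fun y hc hy => sausage_vol y hc fun i j hij => far _ _ (hy i j hij)⟩
  · ext p
    simp only [octE, Set.mem_neg, mem_ofPred_eq, PiLp.neg_apply, abs_neg]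
  · intro i j hij
    obtain ⟨f, c, _, ha, hb, hk⟩ := key i j hij
    exact disjoint_left.2 fun p h1 h2 =>
      hk i p h1 (le_antisymm (ha p (interior_subset h1)) (hb p (interior_subset h2)))

end Pool.Agent.Lib.MP_3b2b47_co.Octahedron
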