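import Pool.Agent.Lib.MP_3b2b47_co.Four

set_option autoImplicit false

open MeasureTheory Set Filter Topology Pointwise

namespace Pool.Agent.Lib.MP_3b2b47_co

theorem off_of_le {E : Type} [NormedAddCommGroup E] [NormedSpace ℝ E] (f : E →L[ℝ] ℝ) (hf : f ≠ 0)
    (c : ℝ) (S : Set E) (h : ∀ p ∈ S, f p ≤ c) (p : E) (hp : p ∈ interior S) : f p ≠ c := by
  intro e
  obtain ⟨u, hu⟩ : ∃ u, f u ≠ 0 := by
    by_contra hn
    push Not at hn
    exact hf (ContinuousLinearMap.ext hn)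
  have hc : Tendsto (fun t : ℝ => p + (t / f u) • u) (𝓝 0) (𝓝 p) := by
    have : Continuous fun t : ℝ => p + (t / f u) • u := by fun_prop
    simpa using this.tendsto 0
  have h1 : ∀ᶠ t : ℝ in 𝓝[>] 0, p + (t / f u) • u ∈ S :=
    (hc.eventually (mem_interior_iff_mem_nhds.1 hp)).filter_mono nhdsWithin_le_nhds
  obtain ⟨t, h2, h3⟩ := (h1.and self_mem_nhdsWithin).exists
  have h4 := h _ h2
  rw [map_add, map_smul, smul_eq_mul, div_mul_cancel₀ _ hu, e] at h4
  have h5 : 0 < t := h3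
  linarith

theorem off_of_ge {E : Type} [NormedAddCommGroup E] [NormedSpace ℝ E] (f : E →L[ℝ] ℝ) (hf : f ≠ 0)
    (c : ℝ) (S : Set E) (h : ∀ p ∈ S, c ≤ f p) (p : E) (hp : p ∈ interior S) : f p ≠ c := by
  have := off_of_le (-f) (neg_ne_zero.2 hf) (-c) S (fun q hq => by simpa using h q hq) p hp
  simpa using this

theorem spread_gen (n : ℕ) (ρ : Fin (n + 1) → ℝ) (h : ∀ i j, i ≠ j → 2 ≤ |ρ j - ρ i|) :
    ∃ i j, 2 * (n : ℝ) ≤ |ρ j - ρ i| := by
  let σ := Tuple.sort ρ
  have hm : Monotone (ρ ∘ σ) := Tuple.monotone_sort ρ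
  have step : ∀ i j : Fin (n + 1), i < j → 2 ≤ ρ (σ j) - ρ (σ i) := by
    intro i j hij
    have h1 := h (σ i) (σ j) (fun e => hij.ne (σ.injective e))
    have h2 : ρ (σ i) ≤ ρ (σ j) := hm hij.le
    rwa [abs_of_nonneg (by linarith)] at h1
  have all : ∀ i : Fin (n + 1), 2 * ((i : ℕ) : ℝ) ≤ ρ (σ i) - ρ (σ 0) := by
    intro i
    induction i using Fin.induction with
    | zero => simp
    | succ i ih =>
      have := step i.castSucc i.succ Fin.castSucc_lt_succ
      simp only [Fin.val_castSucc, Fin.val_succ] at ih ⊢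
      push_cast
      linarith
  exact ⟨σ 0, σ (Fin.last n), le_trans (by simpa using all (Fin.last n)) (le_abs_self _)⟩

theorem reduce {d n : ℕ} {A : Type} [Fintype A] [Nonempty A] (f : A → (Fin d → ℝ) →ₗ[ℝ] ℝ)
    (hco : ∀ i, ∃ a, ∀ x, f a x = x i) (z : Fin (n + 1) → Fin d → ℝ)
    (hz : ∀ i j, i ≠ j → ∃ m, z i m ≠ z j m ∧ ∀ k, z k m = 1 ∨ z k m = -1)
    (V ρ : ℝ) (hV : 0 ≤ V) (hρ : 0 ≤ ρ)
    (hsw : ∀ v a (D : Set (Fin d → ℝ)),
      (∀ p ∈ body f 1, ∀ t : ℝ, 0 ≤ t → t ≤ 1 → p + t • v ∈ D) →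
      ENNReal.ofReal (V * (1 + ρ * |f a v|)) ≤ volume D)
    (W : Set (Fin d → ℝ)) (hW : Convex ℝ W) (hzW : ∀ k, ∀ p ∈ body f 1, z k + p ∈ W)
    (hvol : volume W < ENNReal.ofReal (V * (1 + ρ * (2 * n)))) :
    ∃ (C : Set (EuclideanSpace ℝ (Fin d))) (x : Fin (n + 1) → EuclideanSpace ℝ (Fin d)),
      Convex ℝ C ∧ IsCompact C ∧ (interior C).Nonempty ∧ C = -C ∧
      (∀ i j, i ≠ j → Disjoint (interior (x i +ᵥ C)) (interior (x j +ᵥ C))) ∧
      (∀ i j, i ≠ j → ∃ (g : EuclideanSpace ℝ (Fin d) →L[ℝ] ℝ) (c : ℝ), g ≠ 0 ∧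
        (∀ p ∈ x i +ᵥ C, g p ≤ c) ∧ (∀ p ∈ x j +ᵥ C, c ≤ g p) ∧
        ∀ k, ∀ p ∈ interior (x k +ᵥ C), g p ≠ c) ∧
      ∀ y : Fin (n + 1) → EuclideanSpace ℝ (Fin d), Collinear ℝ (Set.range y) →
        (∀ i j, i ≠ j → Disjoint (interior (y i +ᵥ C)) (interior (y j +ᵥ C))) →
        volume (convexHull ℝ (⋃ i, x i +ᵥ C)) < volume (convexHull ℝ (⋃ i, y i +ᵥ C)) := by
  let L : EuclideanSpace ℝ (Fin d) ≃L[ℝ] (Fin d → ℝ) := PiLp.continuousLinearEquiv 2 ℝ fun _ => ℝ
  let F : A → EuclideanSpace ℝ (Fin d) →ₗ[ℝ] ℝ := fun a => f a ∘ₗ L.toLinearMap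
  have hF : ∀ a p, F a p = f a (L p) := fun _ _ => rfl
  have cF : ∀ a, Continuous (F a) := fun a => (F a).continuous_of_finiteDimensional
  have tr : ∀ H : Set (EuclideanSpace ℝ (Fin d)), volume (L.symm ⁻¹' H) = volume H := fun H =>
    (PiLp.volume_preserving_toLp (Fin d)).measure_preimage_emb
      (MeasurableEquiv.toLp 2 (Fin d → ℝ)).measurableEmbedding H
  have co : ∀ p ∈ body F 1, ∀ i, |p i| ≤ 1 := by
    intro p hp i
    obtain ⟨a, ha⟩ := hco i
    have := hp a
    rwa [hF, ha] at this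
  have mid : ∀ a q : EuclideanSpace ℝ (Fin d), (∀ b, |F b (q - a)| < 1) →
      q ∈ interior (a +ᵥ body F 1) := by
    intro a q h
    have hO : IsOpen (⋂ b, {p | |F b (p - a)| < 1}) := isOpen_iInter_of_finite fun b =>
      isOpen_lt ((cF b).comp (continuous_id.sub continuous_const)).abs continuous_const
    refine interior_maximal (fun p hp => ?_) hO (mem_iInter.2 h)
    exact ⟨p - a, fun b => le_of_lt (mem_iInter.1 hp b), by simp⟩
  have far : ∀ a b : EuclideanSpace ℝ (Fin d),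
      Disjoint (interior (a +ᵥ body F 1)) (interior (b +ᵥ body F 1)) → ∃ c, 2 ≤ |F c (b - a)| := by
    intro a b h
    by_contra hlt
    push Not at hlt
    refine disjoint_left.1 h (mid a (a + (1 / 2 : ℝ) • (b - a)) fun c => ?_) (mid b _ fun c => ?_)
    · rw [add_sub_cancel_left, map_smul, smul_eq_mul, abs_mul, abs_of_pos (by norm_num)]
      linarith [hlt c]
    · have : a + (1 / 2 : ℝ) • (b - a) - b = (-1 / 2 : ℝ) • (b - a) := by module
      rw [this, map_smul, smul_eq_mul, abs_mul, abs_of_neg (by norm_num)]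
      linarith [hlt c]
  have key : ∀ i j, i ≠ j → ∃ (g : EuclideanSpace ℝ (Fin d) →L[ℝ] ℝ) (c : ℝ), g ≠ 0 ∧
      (∀ p ∈ L.symm (z i) +ᵥ body F 1, g p ≤ c) ∧ (∀ p ∈ L.symm (z j) +ᵥ body F 1, c ≤ g p) ∧
      ∀ k, ∀ p ∈ interior (L.symm (z k) +ᵥ body F 1), g p ≠ c := by
    intro i j hij
    obtain ⟨m, h1, h2⟩ := hz i j hij
    let g : EuclideanSpace ℝ (Fin d) →L[ℝ] ℝ := z j m • EuclideanSpace.proj m
    have hg : ∀ k (v : EuclideanSpace ℝ (Fin d)), g (L.symm (z k) +ᵥ v) = z j m * (z k m + v m) :=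
      fun k v => rfl
    have g0 : g ≠ 0 := by
      intro e
      have := hg j 0
      rw [e] at this
      rcases h2 j with h | h <;> simp [h] at this
    have lo : ∀ k, z k m ≠ z j m → ∀ p ∈ L.symm (z k) +ᵥ body F 1, g p ≤ 0 := by
      rintro k hk p ⟨v, hv, rfl⟩
      have := abs_le.1 (co v hv m)
      beta_reduce
      rw [hg]
      rcases h2 j with a | a <;> rcases h2 k with b | b
      · exact absurd (b.trans a.symm) hk
      · rw [a, b]; linarith [this.1, this.2]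
      · rw [a, b]; linarith [this.1, this.2]
      · exact absurd (b.trans a.symm) hk
    have hi : ∀ k, z k m = z j m → ∀ p ∈ L.symm (z k) +ᵥ body F 1, 0 ≤ g p := by
      rintro k hk p ⟨v, hv, rfl⟩
      have := abs_le.1 (co v hv m)
      beta_reduce
      rw [hg, hk]
      rcases h2 j with a | a <;> rw [a] <;> linarith [this.1, this.2]
    refine ⟨g, 0, g0, lo i h1, hi j rfl, fun k => ?_⟩
    by_cases hk : z k m = z j m
    · exact off_of_ge g g0 0 _ (hi k hk)
    · exact off_of_le g g0 0 _ (lo k hk)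
  refine ⟨body F 1, fun k => L.symm (z k), convex_body F 1, ?_, ?_, ?_, ?_, key, ?_⟩
  · have h1 : IsCompact (L.symm '' Icc (fun _ => -1) (fun _ => 1)) :=
      isCompact_Icc.image L.symm.continuous
    refine h1.of_isClosed_subset ?_ fun p hp => ⟨L p, ⟨fun i => (abs_le.1 (co p hp i)).1,
      fun i => (abs_le.1 (co p hp i)).2⟩, L.symm_apply_apply p⟩
    have : body F 1 = ⋂ a, {p | |F a p| ≤ 1} := by ext p; simp [body]
    rw [this]
    exact isClosed_iInter fun a => isClosed_le (cF a).abs continuous_const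
  · exact ⟨0, by simpa using mid 0 0 (by simp)⟩
  · ext p
    simp [body]
  · intro i j hij
    obtain ⟨g, c, _, ha, hb, hk⟩ := key i j hij
    exact disjoint_left.2 fun p h1 h2 =>
      hk i p h1 (le_antisymm (ha p (interior_subset h1)) (hb p (interior_subset h2)))
  · intro y hc hy
    have up : volume (convexHull ℝ (⋃ i, L.symm (z i) +ᵥ body F 1)) ≤ volume W := by
      have e : volume (L ⁻¹' W) = volume W := by
        rw [← tr]
        congr 1
      rw [← e]
      refine measure_mono (convexHull_min ?_ (hW.linear_preimage L.toLinearMap))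
      intro p hp
      obtain ⟨k, v, hv, rfl⟩ := mem_iUnion.1 hp
      exact hzW k (L v) hv
    refine lt_of_le_of_lt up (lt_of_lt_of_le hvol ?_)
    obtain ⟨p₀, u, hu⟩ := (collinear_iff_exists_forall_eq_smul_vadd _).1 hc
    choose r hr using fun i => hu (y i) (mem_range_self i)
    have hd : ∀ c i j, |F c (y j - y i)| = |r j - r i| * |F c u| := by
      intro c i j
      have e : y j - y i = (r j - r i) • u := by
        rw [hr i, hr j, vadd_eq_add, vadd_eq_add, sub_smul]; abel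
      rw [e, map_smul, smul_eq_mul, abs_mul]
    obtain ⟨a, ha⟩ := Finite.exists_max fun c => |F c u|
    have hd' : ∀ i j, abs (r j * |F a u| - r i * |F a u|) = |F a (y j - y i)| := by
      intro i j
      rw [← sub_mul, abs_mul, abs_abs, hd]
    obtain ⟨i, j, hij⟩ := spread_gen n (fun i => r i * |F a u|) (fun i j h => by
      obtain ⟨c, hc⟩ := far _ _ (hy i j h)
      rw [hd', hd]
      rw [hd] at hc
      exact hc.trans (mul_le_mul_of_nonneg_left (ha c) (abs_nonneg _)))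
    rw [hd'] at hij
    rw [← measure_preimage_add volume (y i), ← tr]
    refine le_trans (ENNReal.ofReal_le_ofReal ?_) (hsw (L (y j - y i)) a _ ?_)
    · rw [← hF]; gcongr
    · intro p hp t h0 h1
      have hp' : L.symm p ∈ body F 1 := hp
      have m1 : y i + L.symm p ∈ convexHull ℝ (⋃ i, y i +ᵥ body F 1) :=
        subset_convexHull ℝ _ (mem_iUnion.2 ⟨i, _, hp', rfl⟩)
      have m2 : y j + L.symm p ∈ convexHull ℝ (⋃ i, y i +ᵥ body F 1) :=
        subset_convexHull ℝ _ (mem_iUnion.2 ⟨j, _, hp', rfl⟩)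
      have := convex_convexHull ℝ _ m1 m2 (sub_nonneg.2 h1) h0 (by ring)
      simp only [mem_preimage, map_add, map_smul, ContinuousLinearEquiv.symm_apply_apply]
      convert this using 1
      module

end Pool.Agent.Lib.MP_3b2b47_co
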