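import Mathlib

set_option autoImplicit false

open MeasureTheory Set Filter Topology Pointwise

namespace Pool.Agent.Lib.MP_3b2b47_co

section Abstract

variable {E : Type} [NormedAddCommGroup E] [NormedSpace ℝ E] [FiniteDimensional ℝ E]
  [MeasurableSpace E] [BorelSpace E] (μ : Measure E) [μ.IsAddHaarMeasure]

omit [FiniteDimensional ℝ E] in
/-- J steps by w add J disjoint copies of the part of K that leaves K -/
theorem sw_steps (K A : Set E) (w : E) (hK : Convex ℝ K) (hA : MeasurableSet A)
    (hAK : ∀ x ∈ A, x ∈ K ∧ x + w ∉ K) (J : ℕ) :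
    μ K + J * μ A ≤ μ {p | ∃ j : ℕ, j ≤ J ∧ p - (j : ℝ) • w ∈ K} := by
  induction J with
  | zero =>
    simp only [Nat.cast_zero, zero_mul, add_zero]
    exact measure_mono fun p hp => ⟨0, le_rfl, by simpa using hp⟩
  | succ J ih =>
    set B : Set E := (fun p => p - ((J + 1 : ℕ) : ℝ) • w) ⁻¹' A with hB
    have mB : MeasurableSet B := hA.preimage (by fun_prop)
    have vB : μ B = μ A := by
      simp only [hB, sub_eq_add_neg]
      exact measure_preimage_add_right μ _ A
    have hd : Disjoint {p | ∃ j : ℕ, j ≤ J ∧ p - (j : ℝ) • w ∈ K} B := by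
      rw [Set.disjoint_left]
      rintro p ⟨j, hj, h1⟩ h2
      obtain ⟨h3, h4⟩ := hAK _ h2
      apply h4
      have hk : (1 : ℝ) ≤ (J : ℝ) + 1 - j := by
        have : (j : ℝ) ≤ J := by exact_mod_cast hj
        linarith
      have hk0 : (0 : ℝ) < (J : ℝ) + 1 - j := by linarith
      have h5 := hK h3 h1 (a := 1 - 1 / ((J : ℝ) + 1 - j)) (b := 1 / ((J : ℝ) + 1 - j))
        (by rw [sub_nonneg, div_le_one hk0]; exact hk) (by positivity) (by ring)
      convert h5 using 1
      have e : p - (j : ℝ) • w = p - ((J + 1 : ℕ) : ℝ) • w + ((J : ℝ) + 1 - j) • w := by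
        push_cast; module
      rw [e, smul_add, smul_smul, one_div_mul_cancel hk0.ne', one_smul]
      module
    calc μ K + ((J + 1 : ℕ) : ENNReal) * μ A = μ K + J * μ A + μ B := by
          rw [vB]; push_cast; ring
      _ ≤ μ {p | ∃ j : ℕ, j ≤ J ∧ p - (j : ℝ) • w ∈ K} + μ B := by gcongr
      _ = _ := (measure_union hd mB).symm
      _ ≤ _ := by
        refine measure_mono (union_subset ?_ ?_)
        · rintro p ⟨j, hj, h⟩
          exact ⟨j, hj.trans (Nat.le_succ _), h⟩
        · intro p hp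
          exact ⟨J + 1, le_rfl, (hAK _ hp).1⟩

/-- the outer shell of a truncated cone -/
theorem sw_shell (Q : Set E) (φ : E → ℝ) (hQ : μ Q ≠ ⊤)
    (hc : ∀ x ∈ Q, ∀ r : ℝ, 0 < r → φ x ≤ r → r⁻¹ • x ∈ Q) (δ : ℝ) (h0 : 0 ≤ δ) (h1 : δ < 1) :
    μ.real Q * (Module.finrank ℝ E * δ / (1 + Module.finrank ℝ E * δ)) ≤
      μ.real {x ∈ Q | 1 - δ < φ x} := by
  set m := Module.finrank ℝ E
  have hsub : Q ⊆ {x ∈ Q | 1 - δ < φ x} ∪ (1 - δ) • Q := by
    intro x hx
    by_cases h : 1 - δ < φ x
    · exact Or.inl ⟨hx, h⟩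
    · right
      refine ⟨(1 - δ)⁻¹ • x, hc x hx _ (by linarith) (not_lt.1 h), ?_⟩
      simp only [smul_smul]
      rw [mul_inv_cancel₀ (by linarith), one_smul]
  have e : μ ((1 - δ) • Q) = ENNReal.ofReal ((1 - δ) ^ m) * μ Q :=
    Measure.addHaar_smul_of_nonneg μ (by linarith) Q
  have e' : μ.real ((1 - δ) • Q) = (1 - δ) ^ m * μ.real Q := by
    rw [measureReal_def, e, ENNReal.toReal_mul, ENNReal.toReal_ofReal (pow_nonneg (by linarith) _),
      measureReal_def]
  have f1 : μ {x ∈ Q | 1 - δ < φ x} ≠ ⊤ := measure_ne_top_of_subset (sep_subset _ _) hQ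
  have f2 : μ ((1 - δ) • Q) ≠ ⊤ := by rw [e]; exact ENNReal.mul_ne_top ENNReal.ofReal_ne_top hQ
  have h2 : μ.real Q ≤ μ.real {x ∈ Q | 1 - δ < φ x} + (1 - δ) ^ m * μ.real Q := by
    rw [← e']
    exact (measureReal_mono hsub (measure_union_ne_top f1 f2)).trans (measureReal_union_le _ _)
  have h3 : (1 - δ) ^ m * (1 + m * δ) ≤ 1 := by
    calc (1 - δ) ^ m * (1 + m * δ) ≤ (1 - δ) ^ m * (1 + δ) ^ m :=
          mul_le_mul_of_nonneg_left (one_add_mul_le_pow (by linarith) m) (pow_nonneg (by linarith) _)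
      _ = ((1 - δ) * (1 + δ)) ^ m := (mul_pow _ _ _).symm
      _ ≤ 1 := pow_le_one₀ (mul_nonneg (by linarith) (by linarith)) (by nlinarith)
  have hp : 0 < 1 + (m : ℝ) * δ := by positivity
  have h4 : (m : ℝ) * δ / (1 + m * δ) ≤ 1 - (1 - δ) ^ m := by
    rw [div_le_iff₀ hp]; nlinarith
  have h5 := mul_le_mul_of_nonneg_left h4 (measureReal_nonneg (μ := μ) (s := Q))
  nlinarith

variable {A : Type} [Fintype A] [DecidableEq A] (f : A → E →ₗ[ℝ] ℝ)

/-- the polytope cut out by the functionals f -/
def body (r : ℝ) : Set E := {x | ∀ a, |f a x| ≤ r}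

/-- truncated open cone over the facet where s f a is one -/
def cone (a : A) (s : ℝ) : Set E := {x | (∀ b, b ≠ a → |f b x| < s * f a x) ∧ |f a x| ≤ 1}

omit [Fintype A] [DecidableEq A] [MeasurableSpace E] [BorelSpace E] [FiniteDimensional ℝ E] in
theorem convex_body (r : ℝ) : Convex ℝ (body f r) := by
  intro x hx y hy a b ha hb hab c
  have h1 := hx c
  have h2 := hy c
  rw [map_add, map_smul, map_smul, smul_eq_mul, smul_eq_mul]
  refine (abs_add_le _ _).trans ?_
  rw [abs_mul, abs_mul, abs_of_nonneg ha, abs_of_nonneg hb]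
  have h3 := mul_le_mul_of_nonneg_left h1 ha
  have h4 := mul_le_mul_of_nonneg_left h2 hb
  have h5 : a * r + b * r = r := by rw [← add_mul, hab, one_mul]
  linarith

omit [DecidableEq A] in
theorem meas_cone (a : A) (s : ℝ) : MeasurableSet (cone f a s) := by
  have hc : ∀ b, Measurable (f b) := fun b => (f b).continuous_of_finiteDimensional.measurable
  have : cone f a s = (⋂ b, ⋂ (_ : b ≠ a), {x | |f b x| < s * f a x}) ∩ {x | |f a x| ≤ 1} := by
    ext x; simp [cone]
  rw [this]
  refine (MeasurableSet.iInter fun b => MeasurableSet.iInter fun _ => ?_).inter ?_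
  · exact measurableSet_lt (continuous_abs.measurable.comp (hc b)) ((hc a).const_mul s)
  · exact measurableSet_le (continuous_abs.measurable.comp (hc a)) measurable_const

omit [Fintype A] [MeasurableSpace E] [BorelSpace E] [FiniteDimensional ℝ E] in
theorem cone_sub (a : A) (s : ℝ) (hs : |s| = 1) : cone f a s ⊆ body f 1 := by
  intro x hx b
  by_cases h : b = a
  · rw [h]; exact hx.2
  · have h1 := hx.1 b h
    have h2 : s * f a x ≤ |f a x| := by
      have := le_abs_self (s * f a x)
      rwa [abs_mul, hs, one_mul] at this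
    linarith [hx.2]

omit [Fintype A] in
theorem cone_vol (a0 : A)
    (hsym : ∀ a, ∃ T : E →ₗ[ℝ] E, |LinearMap.det T| = 1 ∧
      ∀ b x, f b (T x) = f (Equiv.swap a a0 b) x) (a : A) (s : ℝ) (hs : s = 1 ∨ s = -1) :
    μ (cone f a s) = μ (cone f a0 1) := by
  obtain ⟨T, hT, h⟩ := hsym a
  have hne : LinearMap.det T ≠ 0 := by
    intro h0; rw [h0] at hT; simp at hT
  have h1 : cone f a 1 = T ⁻¹' cone f a0 1 := by
    ext x
    simp only [cone, mem_ofPred_eq, mem_preimage, h, Equiv.swap_apply_right]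
    refine and_congr_left fun _ => ⟨fun g b hb => g _ ?_, fun g b hb => ?_⟩
    · intro e
      apply hb
      have := congrArg (Equiv.swap a a0) e
      simpa using this
    · have := g (Equiv.swap a a0 b) (by
        intro e
        apply hb
        have := congrArg (Equiv.swap a a0) e
        simpa using this)
      simpa using this
  have h2 : μ (cone f a 1) = μ (cone f a0 1) := by
    rw [h1, Measure.addHaar_preimage_linearMap μ hne, abs_inv, hT]; simp
  rcases hs with rfl | rfl
  · exact h2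
  · rw [← h2]
    have : cone f a (-1) = (-1 : ℝ) • cone f a 1 := by
      ext x
      rw [mem_smul_set_iff_inv_smul_mem₀ (by norm_num)]
      simp [cone]
    rw [this, Measure.addHaar_smul]
    simp

theorem cone_cover [Nontrivial A] (a0 : A)
    (hsym : ∀ a, ∃ T : E →ₗ[ℝ] E, |LinearMap.det T| = 1 ∧
      ∀ b x, f b (T x) = f (Equiv.swap a a0 b) x)
    (hne : ∀ a b, a ≠ b → ∃ x, |f a x| ≠ |f b x|) :
    μ (body f 1) ≤ 2 * Fintype.card A * μ (cone f a0 1) := by
  set Z : Set E := ⋃ a, ⋃ b, ⋃ (_ : a ≠ b), {x | |f a x| = |f b x|} with hZ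
  have z0 : μ Z = 0 := by
    refine measure_iUnion_null fun a => measure_iUnion_null fun b => measure_iUnion_null fun h => ?_
    obtain ⟨x, hx⟩ := hne a b h
    have hs : {x | |f a x| = |f b x|} ⊆
        (LinearMap.ker (f a - f b) : Set E) ∪ (LinearMap.ker (f a + f b) : Set E) := by
      intro y hy
      rcases abs_eq_abs.1 hy with g | g
      · left; simp [g]
      · right; simp [g]
    refine measure_mono_null hs (measure_union_null ?_ ?_)
    · refine Measure.addHaar_submodule μ _ fun e => hx ?_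
      have : x ∈ LinearMap.ker (f a - f b) := by rw [e]; trivial
      simp only [LinearMap.mem_ker, LinearMap.sub_apply, sub_eq_zero] at this
      rw [this]
    · refine Measure.addHaar_submodule μ _ fun e => hx ?_
      have : x ∈ LinearMap.ker (f a + f b) := by rw [e]; trivial
      simp only [LinearMap.mem_ker, LinearMap.add_apply, add_eq_zero_iff_eq_neg] at this
      rw [this, abs_neg]
  have hsub : body f 1 ⊆ (⋃ a, (cone f a 1 ∪ cone f a (-1))) ∪ Z := by
    intro x hx
    by_cases hz : x ∈ Z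
    · exact Or.inr hz
    left
    obtain ⟨a, ha⟩ := Finite.exists_max fun a => |f a x|
    have hlt : ∀ b, b ≠ a → |f b x| < |f a x| := fun b hb =>
      lt_of_le_of_ne (ha b) fun e => hz (by
        simp only [hZ, mem_iUnion]
        exact ⟨b, a, hb, e⟩)
    refine mem_iUnion.2 ⟨a, ?_⟩
    rcases le_total 0 (f a x) with h | h
    · left
      refine ⟨fun b hb => ?_, hx a⟩
      have := hlt b hb
      rwa [abs_of_nonneg h, ← one_mul (f a x)] at this
    · right
      refine ⟨fun b hb => ?_, hx a⟩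
      have := hlt b hb
      rw [abs_of_nonpos h] at this
      linarith
  calc μ (body f 1) ≤ _ := measure_mono hsub
    _ ≤ μ (⋃ a, (cone f a 1 ∪ cone f a (-1))) + μ Z := measure_union_le _ _
    _ ≤ ∑ a, μ (cone f a 1 ∪ cone f a (-1)) := by
      rw [z0, add_zero]
      exact (measure_iUnion_le _).trans (tsum_fintype _).le
    _ ≤ ∑ _a : A, 2 * μ (cone f a0 1) := by
      refine Finset.sum_le_sum fun a _ => (measure_union_le _ _).trans ?_
      rw [cone_vol μ f a0 hsym a 1 (Or.inl rfl), cone_vol μ f a0 hsym a (-1) (Or.inr rfl), two_mul]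
    _ = _ := by
      rw [Finset.sum_const, Finset.card_univ, nsmul_eq_mul]; ring

omit [DecidableEq A] in
theorem sum_abs_ge (g : A → ℝ) (h : ∑ a, g a = 0) (a : A) : 2 * |g a| ≤ ∑ b, |g b| := by
  classical
  have e1 := Finset.add_sum_erase Finset.univ g (Finset.mem_univ a)
  have e2 := Finset.add_sum_erase Finset.univ (fun b => |g b|) (Finset.mem_univ a)
  have e3 : |∑ b ∈ Finset.univ.erase a, g b| ≤ ∑ b ∈ Finset.univ.erase a, |g b| :=
    Finset.abs_sum_le_sum_abs _ _
  have e4 : ∑ b ∈ Finset.univ.erase a, g b = -g a := by linarith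
  rw [e4, abs_neg] at e3
  linarith

/-- sweeping the polytope along v -/
theorem sweep [Nontrivial A] (a0 : A)
    (hsym : ∀ a, ∃ T : E →ₗ[ℝ] E, |LinearMap.det T| = 1 ∧
      ∀ b x, f b (T x) = f (Equiv.swap a a0 b) x)
    (hne : ∀ a b, a ≠ b → ∃ x, |f a x| ≠ |f b x|) (hsum : ∀ x, ∑ a, f a x = 0)
    (hfin : μ (body f 1) ≠ ⊤) (v : E) (a1 : A) (D : Set E)
    (hD : ∀ p ∈ body f 1, ∀ t : ℝ, 0 ≤ t → t ≤ 1 → p + t • v ∈ D) :
    ENNReal.ofReal (μ.real (body f 1) *
      (1 + Module.finrank ℝ E / Fintype.card A * |f a1 v|)) ≤ μ D := by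
  set m := Module.finrank ℝ E
  set V := μ.real (body f 1) with hV
  set c := μ.real (cone f a0 1) with hc
  set X := ∑ b, |f b v| with hX
  have hX0 : 0 ≤ X := Finset.sum_nonneg fun _ _ => abs_nonneg _
  have hXa : ∀ a, |f a v| ≤ X := fun a =>
    Finset.single_le_sum (f := fun b => |f b v|) (fun _ _ => abs_nonneg _) (Finset.mem_univ a)
  have hc0 : 0 ≤ c := measureReal_nonneg
  have hV0 : 0 ≤ V := measureReal_nonneg
  have fc : ∀ a s, |s| = 1 → μ (cone f a s) ≠ ⊤ := fun a s hs =>
    measure_ne_top_of_subset (cone_sub f a s hs) hfin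
  have hVc : V ≤ 2 * Fintype.card A * c := by
    have := ENNReal.toReal_mono
      (ENNReal.mul_ne_top (ENNReal.mul_ne_top (by simp) (by simp)) (fc a0 1 abs_one))
      (cone_cover μ f a0 hsym hne)
    simpa [hV, hc, measureReal_def] using this
  let s : A → ℝ := fun a => if 0 ≤ f a v then 1 else -1
  have hs1 : ∀ a, s a = 1 ∨ s a = -1 := fun a => by
    by_cases h : 0 ≤ f a v <;> simp [s, h]
  have hs2 : ∀ a, |s a| = 1 := fun a => by rcases hs1 a with h | h <;> simp [h]
  have hs3 : ∀ a, s a * f a v = |f a v| := fun a => by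
    by_cases h : 0 ≤ f a v
    · simp [s, h, abs_of_nonneg h]
    · simp [s, h, abs_of_neg (not_le.1 h)]
  have key : ∀ J : ℕ, X < J → ENNReal.ofReal (V + c * m * X / (1 + m * X / J)) ≤ μ D := by
    intro J hJ
    have hJ0 : (0 : ℝ) < J := lt_of_le_of_lt hX0 hJ
    let S : A → Set E := fun a => {x ∈ cone f a (s a) | 1 - |f a v| / J < s a * f a x}
    have mS : ∀ a, MeasurableSet (S a) := fun a =>
      (meas_cone f a _).inter (measurableSet_lt measurable_const
        ((f a).continuous_of_finiteDimensional.measurable.const_mul _))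
    have fS : ∀ a, μ (S a) ≠ ⊤ := fun a =>
      measure_ne_top_of_subset (sep_subset _ _) (fc a _ (hs2 a))
    have dS : Pairwise (Function.onFun Disjoint S) := by
      intro a b hab
      rw [Function.onFun, Set.disjoint_left]
      intro x h1 h2
      have g1 := h1.1.1 b hab.symm
      have g2 := h2.1.1 a hab
      have g3 := le_abs_self (s a * f a x)
      have g4 := le_abs_self (s b * f b x)
      rw [abs_mul, hs2, one_mul] at g3 g4
      linarith
    have vS : ∀ a, c * m * (|f a v| / J) / (1 + m * X / J) ≤ μ.real (S a) := by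
      intro a
      have h0 : 0 ≤ |f a v| / J := by positivity
      have := sw_shell μ (cone f a (s a)) (fun x => s a * f a x) (fc a _ (hs2 a)) (by
        intro x hx r hr hxr
        have hr' : 0 < r⁻¹ := inv_pos.2 hr
        obtain ⟨b, hb⟩ := exists_ne a
        have g0 : 0 < s a * f a x := lt_of_le_of_lt (abs_nonneg _) (hx.1 b hb)
        have g1 : |f a x| = s a * f a x := by
          rw [← abs_of_pos g0, abs_mul, hs2, one_mul]
        refine ⟨fun b hb => ?_, ?_⟩
        · rw [map_smul, map_smul, smul_eq_mul, smul_eq_mul, abs_mul, abs_of_pos hr', mul_left_comm]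
          exact mul_lt_mul_of_pos_left (hx.1 b hb) hr'
        · rw [map_smul, smul_eq_mul, abs_mul, abs_of_pos hr', g1, inv_mul_le_iff₀ hr, mul_one]
          exact hxr) (|f a v| / J) h0 (by
        rw [div_lt_one hJ0]; exact lt_of_le_of_lt (hXa a) hJ)
      refine le_trans ?_ this
      have e : μ.real (cone f a (s a)) = c := by
        rw [hc, measureReal_def, measureReal_def, cone_vol μ f a0 hsym a _ (hs1 a)]
      rw [e, mul_assoc, mul_div_assoc]
      refine mul_le_mul_of_nonneg_left ?_ hc0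
      refine div_le_div_of_nonneg_left (by positivity) (by positivity) ?_
      rw [mul_div_assoc]
      gcongr
      exact hXa a
    have vU : c * m * X / (1 + m * X / J) ≤ J * μ.real (⋃ a, S a) := by
      rw [measureReal_iUnion_fintype dS mS fS]
      have := Finset.sum_le_sum fun a (_ : a ∈ Finset.univ) => vS a
      rw [← Finset.sum_div, ← Finset.mul_sum, ← Finset.sum_div, ← hX] at this
      calc c * m * X / (1 + m * X / J) = J * (c * m * (X / J) / (1 + m * X / J)) := by
            field_simp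
        _ ≤ _ := mul_le_mul_of_nonneg_left this hJ0.le
    have fU : μ (⋃ a, S a) ≠ ⊤ := measure_ne_top_of_subset
      (iUnion_subset fun a => (sep_subset _ _).trans (cone_sub f a _ (hs2 a))) hfin
    have st := sw_steps μ (body f 1) (⋃ a, S a) ((J : ℝ)⁻¹ • v) (convex_body f 1)
      (MeasurableSet.iUnion mS) (by
        intro x hx
        obtain ⟨a, ha⟩ := mem_iUnion.1 hx
        refine ⟨cone_sub f a _ (hs2 a) ha.1, fun h => ?_⟩
        have g1 := h a
        have g2 := ha.2
        have g3 := le_abs_self (s a * f a (x + (J : ℝ)⁻¹ • v))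
        rw [abs_mul, hs2, one_mul] at g3
        rw [map_add, map_smul, smul_eq_mul] at g1 g3
        have g4 : s a * ((J : ℝ)⁻¹ * f a v) = |f a v| / J := by
          rw [mul_left_comm, hs3, div_eq_inv_mul]
        rw [mul_add, g4] at g3
        linarith) J
    calc ENNReal.ofReal (V + c * m * X / (1 + m * X / J))
        ≤ ENNReal.ofReal (V + J * μ.real (⋃ a, S a)) := ENNReal.ofReal_le_ofReal (by linarith)
      _ = μ (body f 1) + J * μ (⋃ a, S a) := by
        rw [ENNReal.ofReal_add hV0 (mul_nonneg hJ0.le measureReal_nonneg),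
          ENNReal.ofReal_mul hJ0.le, hV, ofReal_measureReal hfin, ofReal_measureReal fU]
        simp
      _ ≤ _ := st
      _ ≤ μ D := by
        refine measure_mono ?_
        rintro p ⟨j, hj, h⟩
        have := hD _ h ((j : ℝ) * (J : ℝ)⁻¹) (by positivity) (by
          rw [← div_eq_mul_inv, div_le_one hJ0]; exact_mod_cast hj)
        simpa [smul_smul] using this
  have lim : Tendsto (fun J : ℕ => ENNReal.ofReal (V + c * m * X / (1 + m * X / J))) atTop
      (𝓝 (ENNReal.ofReal (V + c * m * X / (1 + 0)))) := by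
    refine ENNReal.tendsto_ofReal (tendsto_const_nhds.add (tendsto_const_nhds.div
      (tendsto_const_nhds.add (tendsto_const_div_atTop_nhds_zero_nat _)) (by norm_num)))
  have fin : ENNReal.ofReal (V + c * m * X / (1 + 0)) ≤ μ D :=
    le_of_tendsto lim ((tendsto_natCast_atTop_atTop.eventually_gt_atTop X).mono key)
  refine le_trans (ENNReal.ofReal_le_ofReal ?_) fin
  have hA : (0 : ℝ) < Fintype.card A := by exact_mod_cast Fintype.card_pos_iff.2 ⟨a0⟩
  have h2 := sum_abs_ge (fun a => f a v) (hsum v) a1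
  simp only [← hX] at h2
  have h3 : V * (m / Fintype.card A * |f a1 v|) ≤ c * m * X := by
    calc V * (m / Fintype.card A * |f a1 v|)
        ≤ (2 * Fintype.card A * c) * (m / Fintype.card A * |f a1 v|) := by gcongr
      _ = c * m * (2 * |f a1 v|) := by field_simp
      _ ≤ _ := by gcongr
  rw [add_zero, div_one]
  linarith

end Abstract

end Pool.Agent.Lib.MP_3b2b47_co
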