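import Mathlib

set_option autoImplicit false

open MeasureTheory Set

namespace Pool.Agent.Lib.MP_3b2b47_co

/-- the l1 ball of radius r in coordinates -/
def oct (r : ℝ) : Set (Fin 3 → ℝ) := {p | |p 0| + |p 1| + |p 2| ≤ r}

theorem vol_oct (r : ℝ) : volume (oct r) = ENNReal.ofReal r ^ 3 * ENNReal.ofReal (4 / 3) := by
  have h := MeasureTheory.volume_sum_rpow_le (ι := Fin 3) (p := 1) le_rfl r
  have e : {x : Fin 3 → ℝ | (∑ i, |x i| ^ (1 : ℝ)) ^ (1 / (1 : ℝ)) ≤ r} = oct r := by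
    ext x
    simp [oct, Fin.sum_univ_three]
  rw [e] at h
  rw [h]
  have g2 : Real.Gamma (1 / 1 + 1) = 1 := by
    norm_num [Real.Gamma_two]
  have g4 : Real.Gamma (((Fintype.card (Fin 3) : ℕ) : ℝ) / 1 + 1) = 6 := by
    have := Real.Gamma_nat_eq_factorial 3
    simp only [Fintype.card_fin, div_one]
    rw [this]; norm_num [Nat.factorial]
  rw [g2, g4]
  norm_num

/-- reference double prism -/
def refB : Set (Fin 3 → ℝ) := {q | q 0 * q 1 < 0 ∧ |q 0| + |q 1| ≤ 1 ∧ 0 < q 2 ∧ q 2 < 1}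

theorem meas_refB : MeasurableSet refB := by
  unfold refB
  measurability

theorem vol_refB : 1 ≤ volume refB := by
  have hT : MeasurableSet {q : Fin 3 → ℝ | 0 < q 0} := by measurability
  have hsplit := measure_inter_add_sdiff (μ := volume) refB hT
  set w : Fin 3 → ℝ := ![-1, 1, 0] with hw
  have hQ : volume (Set.pi univ fun i => Ioo ((![0, -1, 0] : Fin 3 → ℝ) i) ((![1, 0, 1] : Fin 3 → ℝ) i)) = 1 := by
    rw [Real.volume_pi_Ioo]
    simp [Fin.prod_univ_three]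
  have hsub : (Set.pi univ fun i => Ioo ((![0, -1, 0] : Fin 3 → ℝ) i) ((![1, 0, 1] : Fin 3 → ℝ) i)) ⊆
      (refB ∩ {q : Fin 3 → ℝ | 0 < q 0}) ∪ ((fun q => q + w) ⁻¹' (refB \ {q : Fin 3 → ℝ | 0 < q 0})) := by
    intro q hq
    have h0 := hq 0 (mem_univ _)
    have h1 := hq 1 (mem_univ _)
    have h2 := hq 2 (mem_univ _)
    simp at h0 h1 h2
    by_cases h : q 0 - q 1 ≤ 1
    · left
      refine ⟨⟨mul_neg_of_pos_of_neg h0.1 h1.2, ?_, h2.1, h2.2⟩, h0.1⟩
      rw [abs_of_pos h0.1, abs_of_neg h1.2]; linarith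
    · right
      have e0 : (q + w) 0 = q 0 - 1 := by simp [hw]; ring
      have e1 : (q + w) 1 = q 1 + 1 := by simp [hw]
      have e2 : (q + w) 2 = q 2 := by simp [hw]
      refine ⟨⟨?_, ?_, ?_, ?_⟩, ?_⟩ <;> beta_reduce
      · rw [e0, e1]; exact mul_neg_of_neg_of_pos (by linarith) (by linarith)
      · rw [e0, e1, abs_of_neg (by linarith), abs_of_pos (by linarith)]; linarith
      · rw [e2]; exact h2.1
      · rw [e2]; exact h2.2
      · simp only [mem_ofPred_eq, not_lt]; rw [e0]; linarith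
  calc (1 : ENNReal) = _ := hQ.symm
    _ ≤ _ := measure_mono hsub
    _ ≤ _ := measure_union_le _ _
    _ = volume (refB ∩ {q : Fin 3 → ℝ | 0 < q 0}) + volume (refB \ {q : Fin 3 → ℝ | 0 < q 0}) := by
      rw [measure_preimage_add_right]
    _ = _ := hsplit

theorem vol_pre (M : Matrix (Fin 3) (Fin 3) ℝ) (c : ℝ) (hc : 0 < c) (hM : M.det = c⁻¹) :
    ENNReal.ofReal c ≤ volume (Matrix.toLin' M ⁻¹' refB) := by
  have hd : LinearMap.det (Matrix.toLin' M) = c⁻¹ := by rw [LinearMap.det_toLin', hM]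
  rw [Measure.addHaar_preimage_linearMap _ (by rw [hd]; exact inv_ne_zero hc.ne'), hd, inv_inv,
    abs_of_pos hc]
  calc ENNReal.ofReal c = ENNReal.ofReal c * 1 := (mul_one _).symm
    _ ≤ _ := by gcongr; exact vol_refB

/-- prism piece: coordinates i, j carry the triangle, k carries the time -/
def piece (v : Fin 3 → ℝ) (i j k : Fin 3) : Set (Fin 3 → ℝ) :=
  {p | (p i - p k / v k * v i) * (p j - p k / v k * v j) < 0 ∧
    |p i - p k / v k * v i| + |p j - p k / v k * v j| ≤ 1 ∧ 0 < p k / v k ∧ p k / v k < 1}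

theorem meas_piece (v : Fin 3 → ℝ) (i j k : Fin 3) : MeasurableSet (piece v i j k) := by
  unfold piece
  measurability

theorem vol_piece2 (v : Fin 3 → ℝ) (hv : 0 ≤ v 2) :
    ENNReal.ofReal (v 2) ≤ volume (piece v 0 1 2) := by
  rcases hv.eq_or_lt with h | h
  · rw [← h]; simp
  have := vol_pre !![1, 0, -(v 0 / v 2); 0, 1, -(v 1 / v 2); 0, 0, (v 2)⁻¹] (v 2) h
    (by simp [Matrix.det_fin_three])
  refine this.trans (le_of_eq ?_)
  congr 1
  ext p
  have e0 : Matrix.toLin' !![1, 0, -(v 0 / v 2); 0, 1, -(v 1 / v 2); 0, 0, (v 2)⁻¹] p 0 =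
      p 0 - p 2 / v 2 * v 0 := by
    simp [Matrix.toLin'_apply, Matrix.mulVec, dotProduct, Fin.sum_univ_three]; ring
  have e1 : Matrix.toLin' !![1, 0, -(v 0 / v 2); 0, 1, -(v 1 / v 2); 0, 0, (v 2)⁻¹] p 1 =
      p 1 - p 2 / v 2 * v 1 := by
    simp [Matrix.toLin'_apply, Matrix.mulVec, dotProduct, Fin.sum_univ_three]; ring
  have e2 : Matrix.toLin' !![1, 0, -(v 0 / v 2); 0, 1, -(v 1 / v 2); 0, 0, (v 2)⁻¹] p 2 =
      p 2 / v 2 := by
    simp [Matrix.toLin'_apply, Matrix.mulVec, dotProduct, Fin.sum_univ_three]; ring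
  simp only [mem_preimage, refB, piece, mem_ofPred_eq, e0, e1, e2]

theorem vol_piece0 (v : Fin 3 → ℝ) (hv : 0 ≤ v 0) :
    ENNReal.ofReal (v 0) ≤ volume (piece v 1 2 0) := by
  rcases hv.eq_or_lt with h | h
  · rw [← h]; simp
  have := vol_pre !![-(v 1 / v 0), 1, 0; -(v 2 / v 0), 0, 1; (v 0)⁻¹, 0, 0] (v 0) h
    (by simp [Matrix.det_fin_three])
  refine this.trans (le_of_eq ?_)
  congr 1
  ext p
  have e0 : Matrix.toLin' !![-(v 1 / v 0), 1, 0; -(v 2 / v 0), 0, 1; (v 0)⁻¹, 0, 0] p 0 =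
      p 1 - p 0 / v 0 * v 1 := by
    simp [Matrix.toLin'_apply, Matrix.mulVec, dotProduct, Fin.sum_univ_three]; ring
  have e1 : Matrix.toLin' !![-(v 1 / v 0), 1, 0; -(v 2 / v 0), 0, 1; (v 0)⁻¹, 0, 0] p 1 =
      p 2 - p 0 / v 0 * v 2 := by
    simp [Matrix.toLin'_apply, Matrix.mulVec, dotProduct, Fin.sum_univ_three]; ring
  have e2 : Matrix.toLin' !![-(v 1 / v 0), 1, 0; -(v 2 / v 0), 0, 1; (v 0)⁻¹, 0, 0] p 2 =
      p 0 / v 0 := by
    simp [Matrix.toLin'_apply, Matrix.mulVec, dotProduct, Fin.sum_univ_three]; ring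
  simp only [mem_preimage, refB, piece, mem_ofPred_eq, e0, e1, e2]

theorem vol_piece1 (v : Fin 3 → ℝ) (hv : 0 ≤ v 1) :
    ENNReal.ofReal (v 1) ≤ volume (piece v 2 0 1) := by
  rcases hv.eq_or_lt with h | h
  · rw [← h]; simp
  have := vol_pre !![0, -(v 2 / v 1), 1; 1, -(v 0 / v 1), 0; 0, (v 1)⁻¹, 0] (v 1) h
    (by simp [Matrix.det_fin_three])
  refine this.trans (le_of_eq ?_)
  congr 1
  ext p
  have e0 : Matrix.toLin' !![0, -(v 2 / v 1), 1; 1, -(v 0 / v 1), 0; 0, (v 1)⁻¹, 0] p 0 =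
      p 2 - p 1 / v 1 * v 2 := by
    simp [Matrix.toLin'_apply, Matrix.mulVec, dotProduct, Fin.sum_univ_three]; ring
  have e1 : Matrix.toLin' !![0, -(v 2 / v 1), 1; 1, -(v 0 / v 1), 0; 0, (v 1)⁻¹, 0] p 1 =
      p 0 - p 1 / v 1 * v 0 := by
    simp [Matrix.toLin'_apply, Matrix.mulVec, dotProduct, Fin.sum_univ_three]; ring
  have e2 : Matrix.toLin' !![0, -(v 2 / v 1), 1; 1, -(v 0 / v 1), 0; 0, (v 1)⁻¹, 0] p 2 =
      p 1 / v 1 := by
    simp [Matrix.toLin'_apply, Matrix.mulVec, dotProduct, Fin.sum_univ_three]; ring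
  simp only [mem_preimage, refB, piece, mem_ofPred_eq, e0, e1, e2]

/-- the lower half of the octahedron -/
def lowHalf : Set (Fin 3 → ℝ) :=
  {p | |p 0| + |p 1| + |p 2| ≤ 1 ∧ ((p 0 < 0 ∧ p 1 < 0) ∨ (p 1 < 0 ∧ p 2 < 0) ∨ (p 2 < 0 ∧ p 0 < 0))}

theorem meas_lowHalf : MeasurableSet lowHalf := by
  unfold lowHalf
  measurability

theorem vol_lowHalf : ENNReal.ofReal (4 / 3) ≤ volume lowHalf + volume lowHalf := by
  have h1 : volume (oct 1) = ENNReal.ofReal (4 / 3) := by rw [vol_oct]; simp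
  have hz : ∀ i : Fin 3, volume {p : Fin 3 → ℝ | p i = 0} = 0 := fun i =>
    Measure.pi_hyperplane (fun _ => (volume : Measure ℝ)) i 0
  have hsub : oct 1 ⊆ (lowHalf ∪ (fun p => -p) ⁻¹' lowHalf) ∪
      (({p : Fin 3 → ℝ | p 0 = 0} ∪ {p : Fin 3 → ℝ | p 1 = 0}) ∪ {p : Fin 3 → ℝ | p 2 = 0}) := by
    intro p hp
    simp only [oct, mem_ofPred_eq] at hp
    simp only [mem_union, mem_preimage, lowHalf, mem_ofPred_eq, Pi.neg_apply, abs_neg, hp, true_and,
      neg_lt_zero]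
    rcases lt_trichotomy (p 0) 0 with a | a | a <;> rcases lt_trichotomy (p 1) 0 with b | b | b <;>
      rcases lt_trichotomy (p 2) 0 with c | c | c <;> simp [a, b, c]
  have hn : volume ((fun p : Fin 3 → ℝ => -p) ⁻¹' lowHalf) = volume lowHalf :=
    (Measure.measurePreserving_neg volume).measure_preimage meas_lowHalf.nullMeasurableSet
  calc ENNReal.ofReal (4 / 3) = volume (oct 1) := h1.symm
    _ ≤ _ := measure_mono hsub
    _ ≤ volume (lowHalf ∪ (fun p => -p) ⁻¹' lowHalf) + volume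
      (({p : Fin 3 → ℝ | p 0 = 0} ∪ {p : Fin 3 → ℝ | p 1 = 0}) ∪ {p : Fin 3 → ℝ | p 2 = 0}) :=
      measure_union_le _ _
    _ = volume (lowHalf ∪ (fun p => -p) ⁻¹' lowHalf) := by
      rw [measure_union_null (measure_union_null (hz 0) (hz 1)) (hz 2), add_zero]
    _ ≤ volume lowHalf + volume ((fun p : Fin 3 → ℝ => -p) ⁻¹' lowHalf) := measure_union_le _ _
    _ = _ := by rw [hn]

/-- two prism pieces are disjoint: scalar form -/
theorem scalar_pp (a b c x y z t s : ℝ) (ha : 0 ≤ a) (hb : 0 ≤ b) (hc : 0 ≤ c)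
    (hz : z = t * c) (hx : x = s * a)
    (h1 : (x - t * a) * (y - t * b) < 0) (h2 : (y - s * b) * (z - s * c) < 0) : False := by
  subst hz hx
  rcases lt_trichotomy s t with h | h | h
  · have e1 : s * a - t * a ≤ 0 := by nlinarith
    have e2 : 0 ≤ t * c - s * c := by nlinarith
    have f1 : 0 < y - t * b := by
      by_contra hh
      push Not at hh
      nlinarith [mul_nonneg_of_nonpos_of_nonpos e1 hh]
    have f2 : y - s * b < 0 := by
      by_contra hh
      push Not at hh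
      nlinarith [mul_nonneg hh e2]
    nlinarith
  · subst h; simp at h1
  · have e1 : 0 ≤ s * a - t * a := by nlinarith
    have e2 : t * c - s * c ≤ 0 := by nlinarith
    have f1 : y - t * b < 0 := by
      by_contra hh
      push Not at hh
      nlinarith [mul_nonneg e1 hh]
    have f2 : 0 < y - s * b := by
      by_contra hh
      push Not at hh
      nlinarith [mul_nonneg_of_nonpos_of_nonpos hh e2]
    nlinarith

theorem time_eq {x a : ℝ} (h : 0 < x / a) : x = x / a * a := by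
  have : a ≠ 0 := by
    rintro rfl
    simp at h
  field_simp

theorem disj_pp (v : Fin 3 → ℝ) (hv : ∀ i, 0 ≤ v i) (i j k : Fin 3) :
    Disjoint (piece v i j k) (piece v j k i) := by
  rw [Set.disjoint_left]
  intro p h1 h2
  exact scalar_pp (v i) (v j) (v k) (p i) (p j) (p k) (p k / v k) (p i / v i) (hv i) (hv j) (hv k)
    (time_eq h1.2.2.1) (time_eq h2.2.2.1) h1.1 h2.1

/-- a point of a prism piece has a positive coordinate among i, j and coordinate k nonnegative -/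
theorem piece_low (v : Fin 3 → ℝ) (hv : ∀ i, 0 ≤ v i) (i j k : Fin 3) (p : Fin 3 → ℝ)
    (h : p ∈ piece v i j k) : (0 < p i ∨ 0 < p j) ∧ 0 ≤ p k := by
  obtain ⟨h1, -, h3, h4⟩ := h
  have e := time_eq h3
  constructor
  · rcases mul_neg_iff.1 h1 with h | h
    · left; nlinarith [mul_nonneg h3.le (hv i), h.1]
    · right; nlinarith [mul_nonneg h3.le (hv j), h.2]
  · rw [e]; exact mul_nonneg h3.le (hv k)

theorem piece_high (v : Fin 3 → ℝ) (hv : ∀ i, 0 ≤ v i) (i j k : Fin 3) (p : Fin 3 → ℝ)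
    (h : p ∈ piece v i j k) : (0 < v i - p i ∨ 0 < v j - p j) ∧ 0 ≤ v k - p k := by
  obtain ⟨h1, -, h3, h4⟩ := h
  have e := time_eq h3
  have h5 : 0 ≤ 1 - p k / v k := by linarith
  constructor
  · rcases mul_neg_iff.1 h1 with h | h
    · right; nlinarith [mul_nonneg h5 (hv j), h.2]
    · left; nlinarith [mul_nonneg h5 (hv i), h.1]
  · nlinarith [mul_nonneg h5 (hv k)]

theorem vol_sweep_nonneg (v : Fin 3 → ℝ) (hv : ∀ i, 0 ≤ v i) (D : Set (Fin 3 → ℝ))
    (hD : ∀ p ∈ oct 1, ∀ t : ℝ, 0 ≤ t → t ≤ 1 → p + t • v ∈ D) :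
    ENNReal.ofReal (4 / 3 + (v 0 + v 1 + v 2)) ≤ volume D := by
  set H : Set (Fin 3 → ℝ) := (fun p => v - p) ⁻¹' lowHalf with hH
  have mH : MeasurableSet H := meas_lowHalf.preimage (by fun_prop)
  have vH : volume H = volume lowHalf :=
    (Measure.measurePreserving_sub_left volume v).measure_preimage meas_lowHalf.nullMeasurableSet
  have d1 : Disjoint lowHalf H := by
    rw [Set.disjoint_left]
    intro p h1 h2
    have a0 := hv 0
    have a1 := hv 1
    have a2 := hv 2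
    simp only [hH, mem_preimage, lowHalf, mem_ofPred_eq, Pi.sub_apply] at h1 h2
    rcases h1.2 with h | h | h <;> rcases h2.2 with g | g | g <;> linarith [h.1, h.2, g.1, g.2]
  have dl : ∀ i j k : Fin 3, (i = 0 ∧ j = 1 ∧ k = 2 ∨ i = 1 ∧ j = 2 ∧ k = 0 ∨ i = 2 ∧ j = 0 ∧ k = 1) →
      Disjoint (lowHalf ∪ H) (piece v i j k) := by
    intro i j k hijk
    rw [Set.disjoint_left]
    intro p h1 h2
    have l := piece_low v hv i j k p h2
    have u := piece_high v hv i j k p h2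
    simp only [hH, mem_union, mem_preimage, lowHalf, mem_ofPred_eq, Pi.sub_apply] at h1
    rcases hijk with ⟨rfl, rfl, rfl⟩ | ⟨rfl, rfl, rfl⟩ | ⟨rfl, rfl, rfl⟩ <;>
    rcases h1 with ⟨-, h | h | h⟩ | ⟨-, h | h | h⟩ <;>
    rcases l with ⟨l | l, l'⟩ <;> rcases u with ⟨u | u, u'⟩ <;> linarith [h.1, h.2]
  have d2 : Disjoint (lowHalf ∪ H) (piece v 0 1 2) := dl 0 1 2 (by simp)
  have d3 : Disjoint ((lowHalf ∪ H) ∪ piece v 0 1 2) (piece v 1 2 0) :=
    Set.disjoint_union_left.2 ⟨dl 1 2 0 (by simp), disj_pp v hv 0 1 2⟩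
  have d4 : Disjoint (((lowHalf ∪ H) ∪ piece v 0 1 2) ∪ piece v 1 2 0) (piece v 2 0 1) :=
    Set.disjoint_union_left.2 ⟨Set.disjoint_union_left.2 ⟨dl 2 0 1 (by simp),
      (disj_pp v hv 2 0 1).symm⟩, disj_pp v hv 1 2 0⟩
  have sp : ∀ i j k : Fin 3, (i = 0 ∧ j = 1 ∧ k = 2 ∨ i = 1 ∧ j = 2 ∧ k = 0 ∨ i = 2 ∧ j = 0 ∧ k = 1) →
      piece v i j k ⊆ D := by
    intro i j k hijk p hp
    obtain ⟨-, h2, h3, h4⟩ := hp
    have e := time_eq h3
    have := hD (p - (p k / v k) • v) ?_ (p k / v k) h3.le h4.le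
    · simpa using this
    · simp only [oct, mem_ofPred_eq, Pi.sub_apply, Pi.smul_apply, smul_eq_mul]
      rcases hijk with ⟨rfl, rfl, rfl⟩ | ⟨rfl, rfl, rfl⟩ | ⟨rfl, rfl, rfl⟩ <;>
      rw [← e] <;> simp only [sub_self, abs_zero] <;> linarith
  have hsub : (((lowHalf ∪ H) ∪ piece v 0 1 2) ∪ piece v 1 2 0) ∪ piece v 2 0 1 ⊆ D := by
    refine union_subset (union_subset (union_subset (union_subset ?_ ?_) (sp 0 1 2 (by simp)))
      (sp 1 2 0 (by simp))) (sp 2 0 1 (by simp))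
    · intro p hp
      simpa using hD p hp.1 0 le_rfl zero_le_one
    · intro p hp
      have := hD (p - v) ?_ 1 zero_le_one le_rfl
      · simpa using this
      · have := hp.1
        simp only [Pi.sub_apply] at this
        simp only [oct, mem_ofPred_eq, Pi.sub_apply]
        rwa [abs_sub_comm (p 0), abs_sub_comm (p 1), abs_sub_comm (p 2)]
  refine le_trans ?_ (measure_mono hsub)
  rw [measure_union d4 (meas_piece _ _ _ _), measure_union d3 (meas_piece _ _ _ _),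
    measure_union d2 (meas_piece _ _ _ _), measure_union d1 mH, vH]
  have a0 := hv 0
  have a1 := hv 1
  have a2 := hv 2
  have : 4 / 3 + (v 0 + v 1 + v 2) = 4 / 3 + v 2 + v 0 + v 1 := by ring
  rw [this, ENNReal.ofReal_add (by positivity) a1, ENNReal.ofReal_add (by positivity) a0,
    ENNReal.ofReal_add (by positivity) a2]
  gcongr
  · exact vol_lowHalf
  · exact vol_piece2 v a2
  · exact vol_piece0 v a0
  · exact vol_piece1 v a1

theorem vol_sweep (v : Fin 3 → ℝ) (D : Set (Fin 3 → ℝ))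
    (hD : ∀ p ∈ oct 1, ∀ t : ℝ, 0 ≤ t → t ≤ 1 → p + t • v ∈ D) :
    ENNReal.ofReal (4 / 3 + (|v 0| + |v 1| + |v 2|)) ≤ volume D := by
  let σ : Fin 3 → ℝ := fun i => if 0 ≤ v i then 1 else -1
  have hσ : ∀ i, σ i * |v i| = v i := by
    intro i
    by_cases h : 0 ≤ v i
    · simp [σ, h, abs_of_nonneg h]
    · simp [σ, h, abs_of_neg (not_le.1 h)]
  have hσ1 : ∀ i, |σ i| = 1 := by
    intro i
    by_cases h : 0 ≤ v i <;> simp [σ, h]
  let S : (Fin 3 → ℝ) →ₗ[ℝ] (Fin 3 → ℝ) := Matrix.toLin' (Matrix.diagonal σ)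
  have hS : ∀ p i, S p i = σ i * p i := by
    intro p i
    simp [S, Matrix.toLin'_apply, Matrix.mulVec_diagonal]
  have hdet : |LinearMap.det S| = 1 := by
    rw [LinearMap.det_toLin', Matrix.det_diagonal, Fin.prod_univ_three, abs_mul, abs_mul, hσ1, hσ1,
      hσ1]
    norm_num
  have hne : LinearMap.det S ≠ 0 := by
    intro h; rw [h] at hdet; simp at hdet
  have := vol_sweep_nonneg (fun i => |v i|) (fun i => abs_nonneg _) (S ⁻¹' D) (by
    intro p hp t h0 h1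
    have := hD (S p) ?_ t h0 h1
    · rw [mem_preimage]
      convert this using 1
      ext i
      simp only [hS, Pi.add_apply, Pi.smul_apply, smul_eq_mul]
      rw [mul_add, mul_left_comm, hσ]
    · simp only [oct, mem_ofPred_eq, hS, abs_mul, hσ1, one_mul] at hp ⊢
      exact hp)
  rw [Measure.addHaar_preimage_linearMap _ hne, abs_inv, hdet] at this
  simpa using this

end Pool.Agent.Lib.MP_3b2b47_co
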